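import Pool.Agent.Lib.MP_b9add9_lc.AC.Spec

/-!
# MP_b9add9_lc, row AC, module BLD: building an oracle
-/

set_option linter.unusedSectionVars false

namespace ESY.AC.BLDM

open ESY ESY.Conv ESY.Few ESY.AC
open ESY.Alg2 (tp ln exists_fix)
open ESY.Alg3 (Ls mem_Ls Qy rs vn rs_length rs_inj)
open ESY.Alg4 (O0 O1 kp Jn)
open ESY.Alg6 (AE bk ex lw qv ql wt Gp Cn St atl cn_mono)

variable [AE]

theorem mn_mono {n n' : ℕ} (h : n ≤ n') : Mn n ≤ Mn n' :=
  Nat.mul_le_mul_left _ (Nat.mul_le_mul (Nat.mul_le_mul (by omega) (by omega)) (cn_mono h))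

theorem lvn_strict {n n' : ℕ} (h : n < n') : lvn n < lvn n' := by
  have := mn_mono h.le
  unfold lvn
  omega

theorem mem_Sn {n : ℕ} {y : List Bool} :
    y ∈ Sn n ↔ y.length = 8 * Mn n ∧ true ∈ y ∧ false ∈ y := by
  rw [Sn, Finset.mem_filter, mem_Ls]

theorem mem_Sb {b : Bool} {n : ℕ} {y : List Bool} :
    y ∈ Sb b n ↔ y ∈ Sn n ∧ y.getLast? = some b := by
  rw [Sb, Finset.mem_filter]

theorem rs_len {v y : List Bool} (hy : y ∈ Sn v.length) {j : ℕ} (hj : j ≤ 1) :
    (rs Jn v y j).length = lvl v := by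
  rw [rs_length Jn v y hj, (mem_Sn.1 hy).1]
  unfold lvl lvn Jn
  ring

theorem rowBitF_length {n₀ : ℕ} {s : List Bool} (h : RowBitF n₀ s) : lvn n₀ ≤ s.length := by
  obtain ⟨v, hv, y, hy, j, hj, rfl⟩ := h
  rw [rs_len hy hj, lvl]
  rcases Nat.eq_or_lt_of_le hv with h | h
  · rw [h]
  · exact (lvn_strict h).le

theorem specBLD : SpecBLD := by
  classical
  intro A₁ n₀ c hc hc'
  have hcS1 : ∀ A b v y, y ∈ (c A b v).1 → y ∈ Sn v.length := fun A b v y hy =>
    (mem_Sb.1 ((hc A b v).1 hy)).1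
  have hcS2 : ∀ A b v y, y ∈ (c A b v).2 → y ∈ Sn v.length := fun A b v y hy =>
    (mem_Sb.1 ((hc A b v).2 hy)).1
  obtain ⟨A, hA⟩ := exists_fix (α := Bool) (fun A s => if RowBitF n₀ s then
    decide (∃ b v y, (s = rs Jn v y 0 ∧ y ∈ (c A b v).1) ∨ (s = rs Jn v y 1 ∧ y ∈ (c A b v).2))
    else A₁ s) (by
      intro K₁ K₂ s h
      by_cases hs : RowBitF n₀ s
      · rw [if_pos hs, if_pos hs]
        refine decide_eq_decide.2 (exists_congr fun b => exists_congr fun v =>
          exists_congr fun y => ?_)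
        have key : ∀ j ≤ 1, y ∈ Sn v.length → s = rs Jn v y j → c K₁ b v = c K₂ b v := by
          intro j hj hy e
          refine hc' K₁ K₂ b v fun s' hs' => h s' ?_
          rw [e, rs_len hy hj]
          exact hs'
        refine or_congr ?_ ?_
        · constructor
          · rintro ⟨e, hy⟩
            exact ⟨e, by rw [← key 0 (Nat.zero_le _) (hcS1 _ _ _ _ hy) e]; exact hy⟩
          · rintro ⟨e, hy⟩
            exact ⟨e, by rw [key 0 (Nat.zero_le _) (hcS1 _ _ _ _ hy) e]; exact hy⟩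
        · constructor
          · rintro ⟨e, hy⟩
            exact ⟨e, by rw [← key 1 le_rfl (hcS2 _ _ _ _ hy) e]; exact hy⟩
          · rintro ⟨e, hy⟩
            exact ⟨e, by rw [key 1 le_rfl (hcS2 _ _ _ _ hy) e]; exact hy⟩
      · rw [if_neg hs, if_neg hs])
  refine ⟨A, fun s hs => ?_, fun s hs => ?_, fun b v hv => ?_⟩
  · rw [hA s, if_neg hs]
  · rw [hA s, if_neg]
    intro h
    exact absurd (rowBitF_length h) (not_le.2 hs)
  · refine Prod.ext ?_ ?_
    · ext y
      unfold cfg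
      rw [Finset.mem_filter]
      constructor
      · rintro ⟨hy, h⟩
        have hyS := (mem_Sb.1 hy).1
        rw [hA, if_pos ⟨v, hv, y, hyS, 0, Nat.zero_le _, rfl⟩, decide_eq_true_eq] at h
        obtain ⟨b', v', y', ⟨e, h⟩ | ⟨e, h⟩⟩ := h
        · obtain ⟨e1, e2, -⟩ := rs_inj (J := Jn) (Nat.zero_le _) (Nat.zero_le _) e
          subst e1 e2
          have hb : b = b' := Option.some.inj
            ((mem_Sb.1 hy).2.symm.trans (mem_Sb.1 ((hc A b' v).1 h)).2)
          rw [hb]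
          exact h
        · obtain ⟨-, -, e3⟩ := rs_inj (J := Jn) (j := 0) (j' := 1) (Nat.zero_le _) (le_refl 1) e
          exact absurd e3 (by decide)
      · intro h
        have hy := (hc A b v).1 h
        refine ⟨hy, ?_⟩
        rw [hA, if_pos ⟨v, hv, y, (mem_Sb.1 hy).1, 0, Nat.zero_le _, rfl⟩, decide_eq_true_eq]
        exact ⟨b, v, y, Or.inl ⟨rfl, h⟩⟩
    · ext y
      unfold cfg
      rw [Finset.mem_filter]
      constructor
      · rintro ⟨hy, h⟩
        have hyS := (mem_Sb.1 hy).1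
        rw [hA, if_pos ⟨v, hv, y, hyS, 1, le_rfl, rfl⟩, decide_eq_true_eq] at h
        obtain ⟨b', v', y', ⟨e, h⟩ | ⟨e, h⟩⟩ := h
        · obtain ⟨-, -, e3⟩ := rs_inj (J := Jn) (j := 1) (j' := 0) (le_refl 1) (Nat.zero_le _) e
          exact absurd e3 (by decide)
        · obtain ⟨e1, e2, -⟩ := rs_inj (J := Jn) (j := 1) (j' := 1) (le_refl 1) (le_refl 1) e
          subst e1 e2
          have hb : b = b' := Option.some.inj
            ((mem_Sb.1 hy).2.symm.trans (mem_Sb.1 ((hc A b' v).2 h)).2)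
          rw [hb]
          exact h
      · intro h
        have hy := (hc A b v).2 h
        refine ⟨hy, ?_⟩
        rw [hA, if_pos ⟨v, hv, y, (mem_Sb.1 hy).1, 1, le_rfl, rfl⟩, decide_eq_true_eq]
        exact ⟨b, v, y, Or.inr ⟨rfl, h⟩⟩

end ESY.AC.BLDM
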