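import Pool.Agent.Lib.MP_b9add9_lc.AC.Spec
import Pool.Agent.Lib.MP_80aaf5_lc.Btw.Closure

/-!
# MP_b9add9_lc, row AC, module BTO: substitution for machines with output
-/

set_option linter.unusedSectionVars false
set_option autoImplicit false

namespace ESY.AC.BTOM

open ESY ESY.Few ESY.Btw

variable [ESY.Alg6.AE]

/-- the run of `M` with calls of `N` in place of the questions -/
private theorem many {M N : Machine} {C D : Oracle} {d : ℕ}
    (hN : ∀ s : List Bool, HaltsM D N s [] (C s) (poly d s.length)) :
    ∀ (t : ℕ) (c : ESY.Cfg M) (m : ℕ), (∀ i, (c.stack i).length ≤ m) →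
      Run D (scode M N) (t * cost N d (m + t)) (cs (.run c.state) c.stack (fun _ => []) [])
        (cs (.run ((step C M)^[t] c).state) ((step C M)^[t] c).stack (fun _ => []) []) := by
  intro t
  induction t with
  | zero =>
    intro c m _
    exact (Run.refl _ _ _).mono (Nat.zero_le _)
  | succ t ih =>
    intro c m hm
    rw [Function.iterate_succ_apply]
    have h1 := one_step (M := M) hN c (m + (t + 1)) (fun i => (hm i).trans (by omega))
    have h2 := ih (step C M c) (m + 1) (step_len C M c m hm)
    rw [show m + 1 + t = m + (t + 1) by ring] at h2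
    refine (h1.trans h2).mono ?_
    have h4 := Nat.succ_mul t (cost N d (m + (t + 1)))
    rw [Nat.succ_eq_add_one] at h4
    omega

/-- a general machine that has stopped does not move -/
private theorem gfix {K Q : Type} [DecidableEq K] {O : Oracle} {code : Q → GI K Q}
    {c : Q × (K → List Bool)} {b : Bool} (h : code c.1 = .halt b) (n : ℕ) :
    (gstep O code)^[n] c = c := by
  refine Function.iterate_fixed ?_ n
  unfold gstep
  rw [h]

/-- substitution for machines with output -/
private theorem subst_out (M N : Machine) : ∃ M' : Machine, ∀ (C D : Oracle) (d : ℕ),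
    (∀ s : List Bool, HaltsM D N s [] (C s) (poly d s.length)) →
    ∀ (x y : List Bool) (t T : ℕ), Outputs C M x y t → t * cost N d (x.length + t) ≤ T →
      Outputs D M' x y T := by
  have hk : (Sum.inl 0 : Fin (M.k + 2) ⊕ (Fin (N.k + 2) ⊕ Unit)) ≠ Sum.inl 1 :=
    fun h => absurd (Sum.inl.inj h) (by simp)
  obtain ⟨k, eK, h0, h1⟩ := exists_equiv_two _ _ hk
  obtain ⟨q, eQ, hq⟩ := exists_equiv_one (Btw.Sb.run 0 : Btw.Sb M.q N.q N.k)
  refine ⟨conv eK eQ (scode M N), fun C D d hN x y t T hO hT => ?_⟩
  obtain ⟨t', ht', hr⟩ := many (M := M) hN t (start M x []) (x.length)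
    (start_len M x [] _ le_rfl (Nat.zero_le _))
  -- the start configuration
  have h3 : ∀ i : Fin (k + 2), (if i = 0 then x else if i = 1 then ([] : List Bool) else []) =
      (cs (.run 0 : Btw.Sb M.q N.q N.k) (start M x []).stack (fun _ => []) []).2 (eK.symm i) := by
    intro i
    have e0 : eK.symm i = .inl 0 ↔ i = 0 := by
      rw [← h0, Equiv.symm_apply_eq]
    have e1 : (if i = 1 then ([] : List Bool) else []) = [] := by split_ifs <;> rfl
    rw [e1]
    by_cases hi : i = 0
    · rw [if_pos hi, e0.2 hi]
      rfl
    · rw [if_neg hi]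
      have h4 : eK.symm i ≠ .inl 0 := fun h => hi (e0.1 h)
      rcases h5 : eK.symm i with j | j | j
      · have h6 : j ≠ 0 := fun h => h4 (by rw [h5, h])
        unfold Btw.cs start
        simp only [Sum.elim_inl, if_neg h6]
        split_ifs <;> rfl
      · rfl
      · rfl
  have h2 : start (conv eK eQ (scode M N)) x [] = tr eK eQ (scode M N)
      (cs (.run 0) (start M x []).stack (fun _ => []) []) :=
    (congrArg (fun S => ESY.Cfg.mk (M := conv eK eQ (scode M N)) (0 : Fin (q + 1)) S)
      (funext h3)).trans
      (congrArg (fun s : Fin (q + 1) => ESY.Cfg.mk (M := conv eK eQ (scode M N)) s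
        (fun i => (cs (.run 0 : Btw.Sb M.q N.q N.k) (start M x []).stack (fun _ => []) []).2
          (eK.symm i))) hq.symm)
  obtain ⟨hh, hy⟩ := hO
  have h7 : scode M N (.run ((step C M)^[t] (start M x [])).state) = .halt true := by
    unfold scode
    simp only [hh]
  obtain ⟨r, rfl⟩ := Nat.exists_eq_add_of_le (ht'.trans hT)
  have h8 : (step D (conv eK eQ (scode M N)))^[t' + r] (start (conv eK eQ (scode M N)) x []) =
      tr eK eQ (scode M N) (cs (.run ((step C M)^[t] (start M x [])).state)
        ((step C M)^[t] (start M x [])).stack (fun _ => []) []) := by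
    rw [h2, iter_conv, Nat.add_comm t' r, Function.iterate_add_apply]
    have h9 : (gstep D (scode M N))^[t'] (cs (.run 0) (start M x []).stack (fun _ => []) []) =
        cs (.run ((step C M)^[t] (start M x [])).state)
        ((step C M)^[t] (start M x [])).stack (fun _ => []) [] := hr
    rw [h9, gfix h7]
  constructor
  · rw [h8]
    refine (code_conv eK eQ (scode M N) _).trans ?_
    change gmap eK eQ (scode M N (.run ((step C M)^[t] (start M x [])).state)) = _
    rw [h7]
    rfl
  · rw [h8]
    change (cs (.run ((step C M)^[t] (start M x [])).state : Btw.Sb M.q N.q N.k)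
        ((step C M)^[t] (start M x [])).stack (fun _ => []) []).2 (eK.symm 0) = y
    rw [← h0, Equiv.symm_apply_apply]
    exact hy

theorem specBTO : SpecBTO := by
  intro C D h M c
  obtain ⟨N, d, hN⟩ := decider h
  obtain ⟨M', hM'⟩ := subst_out M N
  obtain ⟨c', hc'⟩ : PB fun n => poly c n * ((N.k + 8) * ((n + poly c n) +
      poly d (n + poly c n) + 1)) :=
    pb_mul (pb_poly c) (pb_mul (pb_const _) (pb_add (pb_add
      (pb_add pb_id (pb_poly c)) (pb_comp (pb_add pb_id (pb_poly c)) d)) (pb_const 1)))
  exact ⟨M', c', fun x y hO => hM' C D d hN x y _ _ hO (hc' x.length)⟩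

end ESY.AC.BTOM
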