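import Pool.Agent.Lib.MP_b9add9_lc.AC.Spec

/-!
# MP_b9add9_lc, row AC, module CAN: canonical configurations of the half blocks
-/

set_option linter.unusedSectionVars false
set_option autoImplicit false

namespace ESY.AC

open ESY ESY.Conv ESY.Few
open ESY.Alg3 (Ls mem_Ls card_Ls Qy rs)
open ESY.Alg4 (O0 O1 kp Pq exists_c0 exists_c1 Jn)
open ESY.Alg6 (AE bk ex lw qv ql wt Gp Cn St atl)

variable [AE]

namespace CANM

theorem mn_eq (n : ℕ) : Mn n = 2 * Alg6.Mn n := rfl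

theorem mn_ge (n : ℕ) : 8 * (n + 1) ≤ Mn n := by
  have := Alg6.mn_ge n
  rw [mn_eq]
  omega

theorem mem_Sb {b : Bool} {n : ℕ} {y : List Bool} :
    y ∈ Sb b n ↔ (y.length = 8 * Mn n ∧ true ∈ y ∧ false ∈ y) ∧ y.getLast? = some b := by
  rw [Sb, Finset.mem_filter, Sn, Finset.mem_filter, mem_Ls]

theorem card_Sb_le (b : Bool) (n : ℕ) : (Sb b n).card ≤ 2 ^ (8 * Mn n) := by
  rw [← card_Ls]
  exact Finset.card_le_card ((Finset.filter_subset _ _).trans (Finset.filter_subset _ _))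

theorem card_Sb_ge (b : Bool) (n : ℕ) : 2 ^ (8 * Mn n) ≤ 2 * (Sb b n).card + 2 := by
  classical
  have h0 := mn_ge n
  obtain ⟨N, hN⟩ : ∃ N, 8 * Mn n = N + 1 := ⟨8 * Mn n - 1, by omega⟩
  have h1 : (Ls N).image (fun z => z ++ [b]) ⊆ Sb b n ∪ {List.replicate N b ++ [b]} := by
    intro y hy
    obtain ⟨z, hz, rfl⟩ := Finset.mem_image.1 hy
    rw [mem_Ls] at hz
    rw [Finset.mem_union, Finset.mem_singleton, mem_Sb]
    by_cases hb : (!b) ∈ z
    · left
      refine ⟨⟨?_, ?_⟩, ?_⟩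
      · rw [List.length_append, hz, List.length_singleton, hN]
      · cases b <;> simp_all
      · rw [List.getLast?_append, List.getLast?_singleton]
        rfl
    · right
      congr 1
      rw [← hz]
      refine List.eq_replicate_iff.2 ⟨rfl, fun c hc => ?_⟩
      by_contra hcb
      have : c = !b := by
        cases b <;> cases c <;> simp_all
      exact hb (this ▸ hc)
  have h2 := (Finset.card_le_card h1).trans (Finset.card_union_le _ _)
  rw [Finset.card_image_of_injective _ (fun x y h => List.append_cancel_right h), card_Ls,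
    Finset.card_singleton] at h2
  rw [hN, pow_succ]
  omega

theorem size_bound (b : Bool) (n : ℕ) :
    12 * (2 ^ n * 16 ^ Mn n * (2 * (2 ^ Mn n + 8 * Mn n) + 1)) ≤ (Sb b n).card ∧
      12 * 2 ^ Mn n + 4 ≤ (Sb b n).card := by
  have h0 := mn_ge n
  have h1 := card_Sb_ge b n
  have h2 : Mn n < 2 ^ Mn n := Nat.lt_two_pow_self
  have h3 : 2 ^ n ≤ 2 ^ Mn n := Nat.pow_le_pow_right (by norm_num) (by omega)
  set M := Mn n with hM
  set w := 2 ^ M with hw
  have e1 : 16 ^ M = w ^ 4 := by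
    rw [hw, ← pow_mul, mul_comm, pow_mul]
    norm_num
  have e2 : 2 ^ (8 * M) = w ^ 8 := by
    rw [hw, ← pow_mul, mul_comm]
  have e3 : 256 ≤ w := by
    have : 2 ^ 8 ≤ 2 ^ M := Nat.pow_le_pow_right (by norm_num) (by omega)
    omega
  have e4 : 65536 ≤ w ^ 2 := by nlinarith
  have e5 : 65536 * w ^ 6 ≤ w ^ 8 := by
    calc 65536 * w ^ 6 ≤ w ^ 2 * w ^ 6 := Nat.mul_le_mul_right _ e4
      _ = w ^ 8 := by ring
  have e6 : 1 ≤ w ^ 5 := Nat.one_le_pow _ _ (by omega)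
  have e7 : 256 * w ^ 5 ≤ w ^ 6 := by
    calc 256 * w ^ 5 ≤ w * w ^ 5 := Nat.mul_le_mul_right _ e3
      _ = w ^ 6 := by ring
  rw [e2] at h1
  constructor
  · rw [e1]
    have h4 : 2 ^ n * w ^ 4 * (2 * (w + 8 * M) + 1) ≤ w * w ^ 4 * (19 * w) := by
      refine Nat.mul_le_mul (Nat.mul_le_mul_right _ h3) ?_
      omega
    have h5 : w * w ^ 4 * (19 * w) = 19 * w ^ 6 := by ring
    omega
  · have e8 : w ≤ w ^ 5 := Nat.le_self_pow (by norm_num) _
    omega

/-- canonical configurations for the blocks of length `n` -/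
theorem exists_canon (b : Bool) (n : ℕ) : ∃ c0 c1 : List Bool → Cfg,
    (∀ v : List Bool, v.length = n → c0 v ∈ O0 (Sb b n) ∧ c1 v ∈ O1 (Sb b n)) ∧
    ∀ Q : Finset Qy, ∑ p ∈ Q, wt p ≤ 2 ^ Mn n →
      (∀ v : List Bool, v.length = n → ∃ f ∈ O1 (Sb b n), ∀ p ∈ Q, ct p v f = ct p v (c0 v)) ∧
      ∀ D : Finset (List Bool), (∀ v ∈ D, v.length = n ∧
        ¬ ∃ f ∈ O0 (Sb b n), ∀ p ∈ Q, ct p v f = ct p v (c1 v)) →
        Mn n * D.card ≤ ∑ p ∈ Q, wt p := by
  classical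
  obtain ⟨hb1, hb2⟩ := size_bound b n
  have hΓ : ∀ p ∈ Pq (2 ^ Mn n), Fintype.card (Gp p) ≤ 2 ^ wt p := fun p _ => Alg6.gp_le p
  have h0 : ∀ v : List Bool, ∃ c ∈ O0 (Sb b n), ∀ Q ⊆ Pq (2 ^ Mn n), ∑ p ∈ Q, wt p ≤ 2 ^ Mn n →
      ∃ f ∈ O1 (Sb b n), ∀ p ∈ Q, ct p v f = ct p v c := fun v =>
    exists_c0 (Γ := Gp) (Alg6.sum_Pq _) hΓ (Sb b n) (fun p y => Alg6.cf p (rs Jn v y 0))
      (fun p y => Alg6.cf p (rs Jn v y 1)) hb2
  choose c0 h01 h02 using h0
  obtain ⟨c1, h11, h12⟩ := exists_c1 (Γ := Gp) (V := List.Vector Bool n)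
    (Alg6.sum_Pq _) hΓ (Sb b n) (fun p v y => Alg6.cf p (rs Jn v.1 y 0))
    (fun p v y => Alg6.cf p (rs Jn v.1 y 1)) (M := Mn n)
    (N := 8 * Mn n) (w := 2 ^ Mn n) (card_Sb_le b n) (by have := mn_ge n; omega) (by
      rw [card_vector, Fintype.card_bool]
      exact hb1)
  obtain ⟨c1', hc1⟩ : ∃ c1' : List Bool → Cfg, ∀ v : List.Vector Bool n, c1' v.1 = c1 v :=
    ⟨fun v => if h : v.length = n then c1 ⟨v, h⟩ else (∅, ∅), fun v => dif_pos v.2⟩
  refine ⟨c0, c1', fun v hv => ⟨h01 v, ?_⟩,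
    fun Q hQ => ⟨fun v _ => h02 v Q (Alg6.sub_Pq hQ) hQ, fun D hD => ?_⟩⟩
  · rw [hc1 ⟨v, hv⟩]
    exact h11 _
  · have h2 := h12 Q (Alg6.sub_Pq hQ) hQ
      (Finset.univ.filter fun v : List.Vector Bool n => v.1 ∈ D) (by
      intro v hv
      have h3 := (hD v.1 (Finset.mem_filter.1 hv).2).2
      rw [hc1 v] at h3
      exact h3)
    have h4 : (Finset.univ.filter fun v : List.Vector Bool n => v.1 ∈ D).card = D.card := by
      refine Finset.card_bij (fun v _ => v.1) (fun v hv => (Finset.mem_filter.1 hv).2)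
        (fun v _ v' _ e => Subtype.ext e) fun v hv => ?_
      exact ⟨⟨v, (hD v hv).1⟩, Finset.mem_filter.2 ⟨Finset.mem_univ _, hv⟩, rfl⟩
    rwa [h4] at h2

end CANM

open CANM in
theorem specCAN : SpecCAN := by
  refine ⟨fun b v => (exists_canon b v.length).choose v,
    fun b v => (exists_canon b v.length).choose_spec.choose v, ?_, ?_, ?_, ?_⟩
  · intro b v
    exact ((exists_canon b v.length).choose_spec.choose_spec.1 v rfl).1
  · intro b v
    exact ((exists_canon b v.length).choose_spec.choose_spec.1 v rfl).2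
  · intro b v Q hQ
    exact ((exists_canon b v.length).choose_spec.choose_spec.2 Q hQ).1 v rfl
  · intro b n Q hQ D hD
    refine ((exists_canon b n).choose_spec.choose_spec.2 Q hQ).2 D fun v hv => ?_
    obtain ⟨h1, h2⟩ := hD v hv
    subst h1
    exact ⟨rfl, h2⟩

end ESY.AC
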