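import Pool.Agent.Lib.MP_b9add9_lc.AC.Spec

/-!
# MP_b9add9_lc, row AC: module CER

Certificates and locality of single statements.
-/

set_option linter.unusedSectionVars false
set_option autoImplicit false

namespace ESY.AC.CERM

open ESY ESY.Conv ESY.Few ESY.AC
open ESY.Alg2 (tp ln)
open ESY.Alg3 (Ls Qy rs vn)
open ESY.Alg4 (O0 O1 kp Jn)
open ESY.Alg6 (AE bk ex lw qv ql wt Gp Cn St atl)

variable [AE]

/-- certificates -/
theorem exists_cert {A : Oracle} {a : ℕ} {q : List Bool} (h : St A a q) :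
    ∃ c : Finset Qy, ∑ p ∈ c, wt p ≤ ln a q * (bk (2 * ln a q) + 1) ∧
      (∀ p ∈ c, ql p ≤ bk (2 * ln a q)) ∧
      ∀ A', (∀ p ∈ c, qv p A' = qv p A) → St A' a q := by
  classical
  obtain ⟨w, hw, hacc⟩ := h
  have hl := asked_card (lw a.bodd A) (nu a.div2).1 (tb a.div2 q) (start (nu a.div2).1 q w)
  have ht : tb a.div2 q < ln a q := tb_lt_stm a.div2 q
  have hx : q.length < ln a q := x_lt_stm a.div2 q
  have hlen : ∀ p ∈ (asked (lw a.bodd A) (nu a.div2).1 (tb a.div2 q)
      (start (nu a.div2).1 q w)).toFinset.image fun s => ((a.bodd, s) : Qy),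
      bk p.2.length ≤ bk (2 * ln a q) := by
    intro p hp
    obtain ⟨s, hs, rfl⟩ := Finset.mem_image.1 hp
    have h1 := asked_start_len _ _ _ _ _ s (List.mem_toFinset.1 hs)
    have h2 : max q.length w.length ≤ ln a q := max_le hx.le (hw.trans ht.le)
    exact Alg6.bk_mono (by simp only; omega)
  refine ⟨(asked (lw a.bodd A) (nu a.div2).1 (tb a.div2 q)
      (start (nu a.div2).1 q w)).toFinset.image fun s => ((a.bodd, s) : Qy), ?_,
      fun p hp => hlen p hp, fun A' hA' => ?_⟩
  · refine (Finset.sum_le_card_nsmul _ _ (bk (2 * ln a q) + 1) fun p hp => ?_).trans ?_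
    · exact Nat.succ_le_succ (hlen p hp)
    · rw [smul_eq_mul]
      exact Nat.mul_le_mul_right _
        (Finset.card_image_le.trans ((List.toFinset_card_le _).trans (hl.trans ht.le)))
  · refine ⟨w, hw, (accepts_congr (O := lw a.bodd A) (O' := lw a.bodd A') fun s hs => ?_).2 hacc⟩
    exact hA' (a.bodd, s) (Finset.mem_image.2 ⟨s, List.mem_toFinset.2 hs, rfl⟩)

theorem st_congr {A A' : Oracle} {a : ℕ} {q : List Bool}
    (h : ∀ s : List Bool, s.length ≤ bk (2 * ln a q) → A s = A' s) : St A a q ↔ St A' a q := by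
  refine tr_congr fun s hs => Alg6.lw_congr _ fun r hr => h r ?_
  have h2 : s.length ≤ 2 * ln a q := hs
  have h3 := Alg6.bk_mono h2
  omega

theorem specCER : SpecCER := ⟨fun _ _ _ h => exists_cert h, fun _ _ _ _ h => st_congr h⟩

end ESY.AC.CERM
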