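import Pool.Agent.Lib.MP_b9add9_lc.AC.Spec

/-!
# MP_b9add9_lc, row AC, module CLO: closure
-/

set_option linter.unusedSectionVars false

namespace ESY.AC.CLOM

open ESY ESY.Conv ESY.Few ESY.AC
open ESY.Alg2 (ln)
open ESY.Alg3 (Ls mem_Ls Qy sum_biUnion_le)
open ESY.Alg4 (O0 O1 mem_O0)
open ESY.Alg6 (AE bk ex lw qv ql wt Gp Cn St atl)

variable [AE]

/-- certificates of the blocks -/
theorem cert_name (hCER : SpecCER) (hLOC : SpecLOC) {A : Oracle} {a : ℕ} {q : List Bool}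
    (h : TS A (np a q)) : ∃ c : Finset Qy, ∑ p ∈ c, wt p ≤ Cn (np a q).length ∧
      (∀ p ∈ c, ql p < lvl (np a q)) ∧
      ∀ A', (∀ p ∈ c, qv p A' = qv p A) → St A' (pick a (sel A (np a q))) q := by
  obtain ⟨_, hn, _, _, _, hs, _, _, _, _⟩ := hLOC
  obtain ⟨c, h1, h2, h3⟩ := hCER.1 A _ q (hs A a q h)
  obtain ⟨_, e2, e3⟩ := hn a q (sel A (np a q))
  exact ⟨c, h1.trans e3, fun p hp => (h2 p hp).trans_lt e2, h3⟩

/-- the blocks without ambiguity are few -/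
theorem card_bound {c0 c1 : Bool → List Bool → Cfg} (hC : Canon c0 c1) (A : Oracle) (k : ℕ)
    (Q : Finset Qy) (hQ : ∑ p ∈ Q, wt p ≤ 2 ^ Mn k) (D : Finset (List Bool))
    (hD : ∀ v ∈ D, v.length = k ∧ ¬ ∃ f ∈ O0 (Sb (sel A v) v.length), ∀ p ∈ Q,
      ct p v f = ct p v (c1 (sel A v) v)) :
    (k + 1) * (k + 3) * (D.card * Cn k) ≤ ∑ p ∈ Q, wt p := by
  classical
  have key : ∀ b : Bool, Mn k * (D.filter fun v => sel A v = b).card ≤ ∑ p ∈ Q, wt p := by
    intro b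
    refine hC.amb1 b k Q hQ _ fun v hv => ?_
    obtain ⟨h1, h2⟩ := Finset.mem_filter.1 hv
    have h3 := hD v h1
    rw [h2] at h3
    exact h3
  have hcard : (D.filter fun v => sel A v = true).card +
      (D.filter fun v => sel A v = false).card = D.card := by
    rw [← Finset.card_filter_add_card_filter_not (s := D) (fun v => sel A v = true)]
    congr 2
    ext v
    simp
  have h1 := key true
  have h2 := key false
  have h3 : Mn k * D.card ≤ 2 * ∑ p ∈ Q, wt p := by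
    rw [← hcard, Nat.mul_add]
    omega
  have h4 : 2 * ((k + 1) * (k + 3) * (D.card * Cn k)) ≤ 2 * ∑ p ∈ Q, wt p := by
    calc 2 * ((k + 1) * (k + 3) * (D.card * Cn k)) = Mn k * D.card := by unfold Mn; ring
      _ ≤ _ := h3
  exact Nat.le_of_mul_le_mul_left h4 (by omega)

theorem closure_step (hCER : SpecCER) (hLOC : SpecLOC) {c0 c1 : Bool → List Bool → Cfg}
    (hC : Canon c0 c1) (A : Oracle) {n₀ D : ℕ} (hD : ∀ n, n₀ ≤ n → 2 * D ≤ 2 ^ Mn n) (k : ℕ) :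
    ∀ Q₀ : Finset Qy, (k + 1) * (∑ p ∈ Q₀, wt p) ≤ (k + 2) * D →
      ∃ Q, Q₀ ⊆ Q ∧ (∀ n, k ≤ n → atl Q (lvn n) = atl Q₀ (lvn n)) ∧
      (∀ n < k, n₀ ≤ n → Good c1 A Q n) ∧ ∑ p ∈ Q, wt p ≤ 2 * D := by
  classical
  have hinj : ∀ {a a' : ℕ} {q q' : List Bool}, np a q = np a' q' → a = a' ∧ q = q' :=
    fun {a a' q q'} h => hLOC.1 a a' q q' h
  have hlt : ∀ n n' : ℕ, n < n' → lvn n < lvn n' := hLOC.2.2.2.2.2.2.2.1
  have hmono : ∀ n n' : ℕ, n ≤ n' → lvn n ≤ lvn n' := by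
    intro n n' h
    rcases Nat.lt_or_ge n n' with h' | h'
    · exact (hlt n n' h').le
    · rw [le_antisymm h h']
  induction k with
  | zero =>
    intro Q₀ h
    exact ⟨Q₀, subset_rfl, fun _ _ => rfl, fun n hn => absurd hn (Nat.not_lt_zero n), by omega⟩
  | succ k ih =>
    intro Q₀ h
    by_cases hk : n₀ ≤ k
    swap
    · obtain ⟨Q, h1, h2, h3, h4⟩ := ih Q₀ (by
        have e1 : (k + 2) * ((k + 1) * ∑ p ∈ Q₀, wt p) ≤ (k + 2) * ((k + 2) * D) := by
          calc (k + 2) * ((k + 1) * ∑ p ∈ Q₀, wt p)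
              = (k + 1) * ((k + 1 + 1) * ∑ p ∈ Q₀, wt p) := by ring
            _ ≤ (k + 1) * ((k + 1 + 2) * D) := Nat.mul_le_mul_left _ h
            _ ≤ (k + 2) * ((k + 2) * D) := by nlinarith
        exact Nat.le_of_mul_le_mul_left e1 (by omega))
      exact ⟨Q, h1, fun n hn => h2 n (by omega), fun n hn hn' => absurd hn' (by omega), h4⟩
    have hW0 : ∑ p ∈ Q₀, wt p ≤ 2 * D := by
      have e1 : (k + 2) * ∑ p ∈ Q₀, wt p ≤ (k + 2) * (2 * D) := by
        refine h.trans ?_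
        calc (k + 1 + 2) * D ≤ (2 * (k + 2)) * D := Nat.mul_le_mul_right _ (by omega)
          _ = (k + 2) * (2 * D) := by ring
      exact Nat.le_of_mul_le_mul_left e1 (by omega)
    have hat0 : ∑ p ∈ atl Q₀ (lvn k), wt p ≤ ∑ p ∈ Q₀, wt p :=
      Finset.sum_le_sum_of_subset (Finset.filter_subset _ _)
    have hW : ∑ p ∈ atl Q₀ (lvn k), wt p ≤ 2 ^ Mn k := (hat0.trans hW0).trans (hD k hk)
    -- the blocks that need a certificate
    set Dk : Finset (List Bool) := (Ls k).filter fun v => TS A v ∧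
      ¬ ∃ f ∈ O0 (Sb (sel A v) v.length), ∀ p ∈ atl Q₀ (lvn k),
        ct p v f = ct p v (c1 (sel A v) v) with hDk
    have hDc : (k + 1) * (k + 3) * (Dk.card * Cn k) ≤ ∑ p ∈ atl Q₀ (lvn k), wt p :=
      card_bound hC A k _ hW Dk fun v hv => by
        obtain ⟨h1, h2, h3⟩ := Finset.mem_filter.1 hv
        exact ⟨mem_Ls.1 h1, h3⟩
    have hc : ∀ v : List Bool, ∃ c : Finset Qy, v ∈ Dk → (∀ p ∈ c, ql p < lvn k) ∧
        (∑ p ∈ c, wt p) ≤ Cn k ∧
        ∀ a q, v = np a q → ∀ A', (∀ p ∈ c, qv p A' = qv p A) →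
          St A' (pick a (sel A (np a q))) q := by
      intro v
      by_cases hv : v ∈ Dk
      · obtain ⟨h1, h2, h3⟩ := Finset.mem_filter.1 hv
        obtain ⟨a, q, b, rfl, h4⟩ := h2
        obtain ⟨c, e1, e2, e3⟩ := cert_name hCER hLOC (A := A) (a := a) (q := q) ⟨a, q, b, rfl, h4⟩
        have hlen : (np a q).length = k := mem_Ls.1 h1
        rw [hlen] at e1
        refine ⟨c, fun _ => ⟨fun p hp => ?_, e1, fun a' q' e A' hA' => ?_⟩⟩
        · have := e2 p hp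
          rwa [lvl, hlen] at this
        · obtain ⟨rfl, rfl⟩ := hinj e
          exact e3 A' hA'
      · exact ⟨∅, fun h => absurd h hv⟩
    choose c hc using hc
    set Q₁ : Finset Qy := Q₀ ∪ Dk.biUnion c with hQ₁
    have hlow : ∀ p ∈ Dk.biUnion c, ql p < lvn k := by
      intro p hp
      obtain ⟨v, hv, hp⟩ := Finset.mem_biUnion.1 hp
      exact (hc v hv).1 p hp
    have hat : ∀ n, k ≤ n → atl Q₁ (lvn n) = atl Q₀ (lvn n) := by
      intro n hn
      have hkn := hmono k n hn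
      ext p
      simp only [atl, Finset.mem_filter, hQ₁, Finset.mem_union]
      constructor
      · rintro ⟨h | hp, hpm⟩
        · exact ⟨h, hpm⟩
        · have := hlow p hp
          omega
      · rintro ⟨h, hpm⟩
        exact ⟨Or.inl h, hpm⟩
    have hw : (k + 1) * (∑ p ∈ Q₁, wt p) ≤ (k + 2) * D := by
      have h1 : ∑ p ∈ Q₁, wt p ≤ ∑ p ∈ Q₀, wt p + ∑ p ∈ Dk.biUnion c, wt p := by
        rw [hQ₁, ← Finset.sum_union_inter]
        exact Nat.le_add_right _ _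
      have h2 : ∑ p ∈ Dk.biUnion c, wt p ≤ ∑ v ∈ Dk, ∑ p ∈ c v, wt p :=
        sum_biUnion_le _ _ _
      have h3 : ∑ v ∈ Dk, ∑ p ∈ c v, wt p ≤ Dk.card * Cn k := by
        rw [← smul_eq_mul]
        exact Finset.sum_le_card_nsmul _ _ _ fun v hv => (hc v hv).2.1
      have h4 : (k + 1) * (k + 3) * (Dk.card * Cn k) ≤ ∑ p ∈ Q₀, wt p := hDc.trans hat0
      have h5 : (k + 1) * (k + 3) * ∑ p ∈ Q₁, wt p ≤ (k + 2) * ((k + 2) * ∑ p ∈ Q₀, wt p) := by
        calc (k + 1) * (k + 3) * ∑ p ∈ Q₁, wt p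
            ≤ (k + 1) * (k + 3) * (∑ p ∈ Q₀, wt p + Dk.card * Cn k) :=
              Nat.mul_le_mul_left _ (h1.trans (Nat.add_le_add_left (h2.trans h3) _))
          _ = (k + 1) * (k + 3) * ∑ p ∈ Q₀, wt p + (k + 1) * (k + 3) * (Dk.card * Cn k) := by ring
          _ ≤ (k + 1) * (k + 3) * ∑ p ∈ Q₀, wt p + ∑ p ∈ Q₀, wt p := Nat.add_le_add_left h4 _
          _ = (k + 2) * ((k + 2) * ∑ p ∈ Q₀, wt p) := by ring
      have h6 : (k + 3) * ((k + 1) * ∑ p ∈ Q₁, wt p) ≤ (k + 3) * ((k + 2) * D) := by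
        calc (k + 3) * ((k + 1) * ∑ p ∈ Q₁, wt p) = (k + 1) * (k + 3) * ∑ p ∈ Q₁, wt p := by ring
          _ ≤ (k + 2) * ((k + 2) * ∑ p ∈ Q₀, wt p) := h5
          _ ≤ (k + 2) * ((k + 3) * D) := Nat.mul_le_mul_left _ h
          _ = (k + 3) * ((k + 2) * D) := by ring
      exact Nat.le_of_mul_le_mul_left h6 (by omega)
    obtain ⟨Q, h1, h2, h3, h4⟩ := ih Q₁ hw
    refine ⟨Q, Finset.subset_union_left.trans h1, fun n hn => (h2 n (by omega)).trans
      (hat n (by omega)), fun n hn hn' => ?_, h4⟩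
    rcases Nat.lt_succ_iff_lt_or_eq.1 hn with hn | rfl
    · exact h3 n hn hn'
    · intro a q hlen hst hna A' hA'
      have hv : np a q ∈ Dk := by
        rw [hDk, Finset.mem_filter, mem_Ls]
        refine ⟨hlen, hst, fun hex => hna ?_⟩
        rw [lvl, hlen, h2 n le_rfl, hat n le_rfl]
        rw [hlen] at hex
        exact hex
      refine (hc _ hv).2.2 a q rfl A' fun p hp => hA' p (h1 (Finset.mem_union_right _
        (Finset.mem_biUnion.2 ⟨_, hv, hp⟩))) ?_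
      rw [lvl, hlen]
      exact (hc _ hv).1 p hp

/-- **Closure.** -/
theorem specCLO (hCER : SpecCER) (hLOC : SpecLOC) : SpecCLO := by
  classical
  intro c0 c1 hC A n₀ Q₀ hD
  obtain ⟨Q, h1, h2, h3, h4⟩ := closure_step hCER hLOC hC A hD (max n₀ (Q₀.sup ql) + 1) Q₀
    (Nat.mul_le_mul_right _ (by omega))
  refine ⟨Q, h1, fun n hn => ?_, h4⟩
  by_cases hm : n < max n₀ (Q₀.sup ql) + 1
  · exact h3 n hm hn
  · intro a q hlen hst hna
    refine absurd ⟨(∅, ∅), mem_O0.2 ⟨⟨Finset.empty_subset _, Finset.empty_subset _⟩,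
      Finset.disjoint_empty_left _⟩, fun p hp => ?_⟩ hna
    exfalso
    rw [lvl, hlen, h2 n (by omega)] at hp
    obtain ⟨e1, e2⟩ := Finset.mem_filter.1 hp
    have e3 := Finset.le_sup (f := ql) e1
    have e4 : n ≤ lvn n := (hLOC.2.2.2.2.2.2.2.2.1 n).2
    have e5 := le_max_right n₀ (Q₀.sup ql)
    omega

end ESY.AC.CLOM
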