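import Pool.Agent.Lib.MP_b9add9_lc.AC.Spec

/-!
# MP_b9add9_lc, row AC: module CLS (the sets of worlds are closed)
-/

set_option linter.unusedSectionVars false
set_option autoImplicit false

namespace ESY.AC.CLSM

open ESY ESY.Conv ESY.Few ESY.AC Set
open ESY.Alg3 (Ls Qy rs vn)
open ESY.Alg4 (O0 O1 kp Jn)
open ESY.Alg6 (AE bk ex lw qv ql wt Gp Cn St atl)

variable [AE]

theorem specCLS (hLOC : SpecLOC) : SpecCLS := by
  obtain ⟨-, -, -, hst, hcfg, -⟩ := hLOC
  have hE : ∀ {A A' : Oracle} {b : Bool} {v : List Bool},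
      (∀ s : List Bool, s.length ≤ lvl v → A s = A' s) → (EmpB A b v ↔ EmpB A' b v) := by
    intro A A' b v h
    rw [EmpB, EmpB, hcfg A A' b v fun s hs => h s hs.le]
  have hF : ∀ {A A' : Oracle} {b : Bool} {v : List Bool},
      (∀ s : List Bool, s.length ≤ lvl v → A s = A' s) → (FullB A b v ↔ FullB A' b v) := by
    intro A A' b v h
    rw [FullB, FullB, hcfg A A' b v fun s hs => h s hs.le]
  intro X
  refine ⟨?_, fun b v => ?_, fun m A₁ => ?_⟩
  · have h : {A | IsWorld X A} = (⋂ s, {A : Oracle | ¬ RowBit s → A s = Bs X s}) ∩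
        ((⋂ v, {A | (∀ b, EmpB A b v) ∨ ∃ b, FullB A b v ∧ EmpB A (!b) v}) ∩
        ((⋂ a, ⋂ q, ⋂ b, {A | FullB A b (np a q) → St A (pick a b) q}) ∩
        ⋂ a, ⋂ q, ⋂ b, {A | St A (pick a b) q → ∃ b', FullB A b' (np a q)})) := by
      ext A
      simp only [mem_ofPred_eq, mem_inter_iff, mem_iInter]
      exact ⟨fun h => ⟨h.base, h.uniq, h.sound, h.compl⟩,
        fun h => ⟨h.1, h.2.1, h.2.2.1, h.2.2.2⟩⟩
    rw [h]
    refine (isClosed_iInter fun s => ?_).inter ((isClosed_iInter fun v => ?_).inter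
      ((isClosed_iInter fun a => isClosed_iInter fun q => isClosed_iInter fun b => ?_).inter
      (isClosed_iInter fun a => isClosed_iInter fun q => isClosed_iInter fun b => ?_)))
    · exact (Alg6.clopen_of_agree s.length fun A A' h => by rw [h s le_rfl]).1
    · refine (Alg6.clopen_of_agree (lvl v) fun A A' h => ?_).1
      exact or_congr (forall_congr' fun b => hE h)
        (exists_congr fun b => and_congr (hF h) (hE h))
    · refine (Alg6.clopen_of_agree (lvl (np a q)) fun A A' h => ?_).1
      exact imp_congr (hF h) (hst A A' a q b fun s hs => h s hs.le)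
    · refine (Alg6.clopen_of_agree (lvl (np a q)) fun A A' h => ?_).1
      exact imp_congr (hst A A' a q b fun s hs => h s hs.le) (exists_congr fun b' => hF h)
  · exact (Alg6.clopen_of_agree (lvl v) fun A A' h => hE h).1
  · refine (Alg6.clopen_of_agree m fun A A' h => ?_).1
    exact forall_congr' fun s => imp_congr_right fun hs => by rw [h s hs.le]

end ESY.AC.CLSM
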