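import Pool.Agent.Lib.MP_b9add9_lc.AC.Spec

/-!
# CNW: canonical worlds
-/

set_option linter.unusedSectionVars false
set_option autoImplicit false

namespace ESY.AC.CNWM

open ESY ESY.Conv ESY.Few ESY.AC
open ESY.Alg2 (tp ln)
open ESY.Alg3 (Ls Qy rs vn)
open ESY.Alg4 (O0 O1 mem_O0 mem_O1 kp Jn)
open ESY.Alg6 (AE bk ex lw qv ql wt Gp Cn St atl)

variable [AE]

theorem canon (hLOC : SpecLOC) (hBLD : SpecBLD) {c0 c1 : Bool → List Bool → Cfg}
    (hC : Canon c0 c1) {X A₁ : Oracle} (n₀ : ℕ) (hb : ∀ s, ¬ RowBit s → A₁ s = Bs X s)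
    (hu : ∀ v : List Bool, v.length < n₀ →
      (∀ b, EmpB A₁ b v) ∨ ∃ b, FullB A₁ b v ∧ EmpB A₁ (!b) v)
    (hs : ∀ a q b, (np a q).length < n₀ → FullB A₁ b (np a q) → St A₁ (pick a b) q)
    (ht : ∀ a q b, (np a q).length < n₀ → St A₁ (pick a b) q → ∃ b', FullB A₁ b' (np a q)) :
    ∃ A, IsWorld X A ∧ (∀ s : List Bool, s.length < lvn n₀ → A s = A₁ s) ∧
      ∀ b v, n₀ ≤ v.length → cfg A b v = cc c0 c1 A b v := by
  classical
  obtain ⟨hinj, -, hTS, hSt, hcfg, hsel, hEF, hlvn, -, -⟩ := hLOC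
  obtain ⟨A, h1, hlow, h2⟩ := hBLD A₁ n₀ (fun A b v => cc c0 c1 A b v) (fun A b v => by
    unfold cc
    split_ifs
    · exact (mem_O1.1 (hC.m1 b v)).1
    · exact (mem_O0.1 (hC.m0 b v)).1) (fun A A' b v h => by
    have h3 := hTS A A' v h
    simp only [cc, h3.1, h3.2])
  have hE : ∀ (b : Bool) (v : List Bool), v.length < n₀ → cfg A b v = cfg A₁ b v :=
    fun b v hv => hcfg A A₁ b v fun s hs => hlow s (lt_of_le_of_lt (le_of_eq hs) (hlvn _ _ hv))
  have hL : ∀ v : List Bool, v.length < n₀ → ∀ s : List Bool, s.length < lvl v → A s = A₁ s :=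
    fun v hv s hs => hlow s (lt_trans hs (hlvn _ _ hv))
  have hfull : ∀ (b : Bool) (v : List Bool), n₀ ≤ v.length → TS A v ∧ b = sel A v →
      FullB A b v := by
    intro b v hv h
    unfold FullB
    rw [h2 b v hv, cc, if_pos h]
    exact hC.m1 b v
  have hemp : ∀ (b : Bool) (v : List Bool), n₀ ≤ v.length → ¬ (TS A v ∧ b = sel A v) →
      EmpB A b v := by
    intro b v hv h
    unfold EmpB
    rw [h2 b v hv, cc, if_neg h]
    exact hC.m0 b v
  refine ⟨A, ⟨fun s hs => ?_, fun v => ?_, fun a q b hf => ?_, fun a q b hst => ?_⟩, hlow, h2⟩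
  · rw [h1 s fun h => hs ?_]
    · exact hb s hs
    · obtain ⟨v, -, y, hy, j, hj, e⟩ := h
      exact ⟨v, y, hy, j, hj, e⟩
  · by_cases hv : n₀ ≤ v.length
    · by_cases ht : TS A v
      · refine Or.inr ⟨sel A v, hfull _ v hv ⟨ht, rfl⟩, hemp _ v hv ?_⟩
        rintro ⟨-, e⟩
        exact absurd e (by cases sel A v <;> decide)
      · exact Or.inl fun b => hemp b v hv fun h => ht h.1
    · unfold EmpB FullB
      simp only [hE _ v (not_le.1 hv)]
      exact hu v (not_le.1 hv)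
  · by_cases hv : n₀ ≤ (np a q).length
    · by_cases ht : TS A (np a q) ∧ b = sel A (np a q)
      · rw [ht.2]
        exact hsel A a q ht.1
      · exact absurd hf (hEF A b _ (hemp b _ hv ht))
    · unfold FullB at hf
      rw [hE b _ (not_le.1 hv)] at hf
      exact (hSt A A₁ a q b (hL _ (not_le.1 hv))).2 (hs a q b (not_le.1 hv) hf)
  · by_cases hv : n₀ ≤ (np a q).length
    · exact ⟨sel A (np a q), hfull _ _ hv ⟨⟨a, q, b, rfl, hst⟩, rfl⟩⟩
    · obtain ⟨b', h'⟩ := ht a q b (not_le.1 hv) ((hSt A A₁ a q b (hL _ (not_le.1 hv))).1 hst)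
      refine ⟨b', ?_⟩
      unfold FullB
      rw [hE b' _ (not_le.1 hv)]
      exact h'

theorem specCNW (hLOC : SpecLOC) (hBLD : SpecBLD) : SpecCNW := by
  intro c0 c1 hC X
  refine ⟨fun A₁ hA n₀ => canon hLOC hBLD hC n₀ hA.base (fun v _ => hA.uniq v)
    (fun a q b _ h => hA.sound a q b h) (fun a q b _ h => hA.compl a q b h), ?_⟩
  obtain ⟨A, h, -⟩ := canon hLOC hBLD hC (X := X) (A₁ := Bs X) 0 (fun _ _ => rfl)
    (fun v h => absurd h (Nat.not_lt_zero _)) (fun a q b h => absurd h (Nat.not_lt_zero _))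
    (fun a q b h => absurd h (Nat.not_lt_zero _))
  exact ⟨A, h⟩

end ESY.AC.CNWM
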