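import Pool.Agent.Lib.MP_b9add9_lc.AC.Spec

/-!
# MP_b9add9_lc, row AC: module CON (cones are in `P`)

(The file name `CON` is reserved on some systems.)
-/

set_option linter.unusedSectionVars false
set_option autoImplicit false

namespace ESY.AC.CONM

open ESY

section
variable {O : Oracle} {M : Machine} {c : ESY.Cfg M} {i : Fin (M.k + 2)}
  {e z o : Fin (M.q + 1)} {s : List Bool}

theorem step_nil (h : M.code c.state = .pop i e z o) (hs : c.stack i = []) :
    step O M c = ⟨e, c.stack⟩ := by
  unfold step
  rw [h]
  dsimp only
  rw [hs]

theorem step_false (h : M.code c.state = .pop i e z o) (hs : c.stack i = false :: s) :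
    step O M c = ⟨z, Function.update c.stack i s⟩ := by
  unfold step
  rw [h]
  dsimp only
  rw [hs]

theorem step_true (h : M.code c.state = .pop i e z o) (hs : c.stack i = true :: s) :
    step O M c = ⟨o, Function.update c.stack i s⟩ := by
  unfold step
  rw [h]
  dsimp only
  rw [hs]

theorem step_halt {b : Bool} (h : M.code c.state = .halt b) : step O M c = c := by
  unfold step
  rw [h]

end

/-- the program: compare the input with `u` -/
def code (u : List Bool) (i : Fin (u.length + 1 + 1)) : Instr (0 + 2) (u.length + 1 + 1) :=
  if h : i.val < u.length then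
    .pop 0 ⟨u.length + 1, by omega⟩
      (if u[i.val] = false then ⟨i.val + 1, by omega⟩ else ⟨u.length + 1, by omega⟩)
      (if u[i.val] = true then ⟨i.val + 1, by omega⟩ else ⟨u.length + 1, by omega⟩)
  else if i.val = u.length then .halt true else .halt false

theorem code_false (u : List Bool) (i : Fin (u.length + 1 + 1)) (hi : i.val < u.length)
    (hb : u[i.val] = false) :
    code u i = .pop 0 ⟨u.length + 1, by omega⟩ ⟨i.val + 1, by omega⟩ ⟨u.length + 1, by omega⟩ := by
  rw [code, dif_pos hi, if_pos hb, if_neg (by rw [hb]; decide)]

theorem code_true (u : List Bool) (i : Fin (u.length + 1 + 1)) (hi : i.val < u.length)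
    (hb : u[i.val] = true) :
    code u i = .pop 0 ⟨u.length + 1, by omega⟩ ⟨u.length + 1, by omega⟩ ⟨i.val + 1, by omega⟩ := by
  rw [code, dif_pos hi, if_pos hb, if_neg (by rw [hb]; decide)]

theorem code_eq (u : List Bool) (i : Fin (u.length + 1 + 1)) (hi : i.val = u.length) :
    code u i = .halt true := by
  rw [code, dif_neg (by omega), if_pos hi]

theorem code_gt (u : List Bool) (i : Fin (u.length + 1 + 1)) (hi : u.length < i.val) :
    code u i = .halt false := by
  rw [code, dif_neg (by omega), if_neg (by omega)]

/-- the machine -/
abbrev mach (u : List Bool) : Machine := ⟨0, u.length + 1, code u⟩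

/-- the state as a number -/
def sta {u : List Bool} (c : ESY.Cfg (mach u)) : ℕ := c.state.val

/-- the input stack -/
def stk {u : List Bool} (c : ESY.Cfg (mach u)) : List Bool := c.stack 0

/-- One step below `|u|`. -/
theorem one_step (O : Oracle) (u : List Bool) (c : ESY.Cfg (mach u)) (hi : sta c < u.length) :
    (∃ s, stk c = u[sta c] :: s ∧ sta (step O (mach u) c) = sta c + 1 ∧
      stk (step O (mach u) c) = s) ∨ sta (step O (mach u) c) = u.length + 1 := by
  have hi' : c.state.val < u.length := hi
  rcases hb : u[c.state.val] with _ | _
  · have h1 : (mach u).code c.state = _ := code_false u c.state hi' hb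
    rcases hs : stk c with _ | ⟨b, s⟩
    · right
      rw [step_nil h1 hs]
      rfl
    · rcases b with _ | _
      · left
        refine ⟨s, ?_, ?_, ?_⟩
        · show false :: s = u[c.state.val] :: s
          rw [hb]
        · rw [step_false h1 hs]
          rfl
        · rw [step_false h1 hs]
          exact Function.update_self (0 : Fin (0 + 2)) s c.stack
      · right
        rw [step_true h1 hs]
        rfl
  · have h1 : (mach u).code c.state = _ := code_true u c.state hi' hb
    rcases hs : stk c with _ | ⟨b, s⟩
    · right
      rw [step_nil h1 hs]
      rfl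
    · rcases b with _ | _
      · right
        rw [step_false h1 hs]
        rfl
      · left
        refine ⟨s, ?_, ?_, ?_⟩
        · show true :: s = u[c.state.val] :: s
          rw [hb]
        · rw [step_true h1 hs]
          rfl
        · rw [step_true h1 hs]
          exact Function.update_self (0 : Fin (0 + 2)) s c.stack

/-- If the next symbol is right, the machine goes on. -/
theorem one_step' (O : Oracle) (u s : List Bool) (c : ESY.Cfg (mach u)) (hi : sta c < u.length)
    (hs : stk c = u[sta c] :: s) : sta (step O (mach u) c) = sta c + 1 ∧
      stk (step O (mach u) c) = s := by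
  have hi' : c.state.val < u.length := hi
  rcases hb : u[c.state.val] with _ | _
  · have h1 : (mach u).code c.state = _ := code_false u c.state hi' hb
    have hs' : c.stack 0 = false :: s := by
      rw [← hb]
      exact hs
    rw [step_false h1 hs']
    refine ⟨rfl, ?_⟩
    exact Function.update_self (0 : Fin (0 + 2)) s c.stack
  · have h1 : (mach u).code c.state = _ := code_true u c.state hi' hb
    have hs' : c.stack 0 = true :: s := by
      rw [← hb]
      exact hs
    rw [step_true h1 hs']
    refine ⟨rfl, ?_⟩
    exact Function.update_self (0 : Fin (0 + 2)) s c.stack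

theorem sta_lt {u : List Bool} (c : ESY.Cfg (mach u)) : sta c < u.length + 2 := c.state.isLt

/-- The invariant. -/
theorem inv_step (O : Oracle) (u x : List Bool) (c : ESY.Cfg (mach u))
    (h : sta c ≤ u.length → x = u.take (sta c) ++ stk c) :
    sta (step O (mach u) c) ≤ u.length →
      x = u.take (sta (step O (mach u) c)) ++ stk (step O (mach u) c) := by
  rcases Nat.lt_or_ge (sta c) u.length with hi | hi
  · rcases one_step O u c hi with ⟨s, h1, h2, h3⟩ | h1
    · intro _
      rw [h2, h3, List.take_succ_eq_append_getElem hi, h hi.le, h1, List.append_assoc]
      rfl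
    · intro hc
      omega
  · have h1 : step O (mach u) c = c := by
      rcases Nat.lt_or_ge u.length (sta c) with h2 | h2
      · exact step_halt (code_gt u c.state h2)
      · exact step_halt (code_eq u c.state (le_antisymm h2 hi))
    rw [h1]
    exact h

theorem inv_iter (O : Oracle) (u x : List Bool) (t : ℕ) :
    sta ((step O (mach u))^[t] (start (mach u) x [])) ≤ u.length →
      x = u.take (sta ((step O (mach u))^[t] (start (mach u) x []))) ++
        stk ((step O (mach u))^[t] (start (mach u) x [])) := by
  induction t with
  | zero =>
    intro _
    rfl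
  | succ t ih =>
    rw [Function.iterate_succ_apply']
    exact inv_step O u x _ ih

theorem run (O : Oracle) (u r : List Bool) (t : ℕ) (ht : t ≤ u.length) :
    sta ((step O (mach u))^[t] (start (mach u) (u ++ r) [])) = t ∧
      stk ((step O (mach u))^[t] (start (mach u) (u ++ r) [])) = u.drop t ++ r := by
  induction t with
  | zero => exact ⟨rfl, rfl⟩
  | succ t ih =>
    obtain ⟨h1, h2⟩ := ih (by omega)
    rw [Function.iterate_succ_apply']
    set c := (step O (mach u))^[t] (start (mach u) (u ++ r) []) with hc
    have hi : sta c < u.length := by omega
    have h4 : stk c = u[sta c] :: (u.drop (t + 1) ++ r) := by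
      rw [h2, List.drop_eq_getElem_cons (show t < u.length by omega)]
      simp only [List.cons_append, h1]
    obtain ⟨h5, h6⟩ := one_step' O u _ c hi h4
    exact ⟨by rw [h5, h1], h6⟩

theorem specCON [Alg6.AE] : SpecCON := by
  intro O u
  refine ⟨mach u, u.length, fun x => ⟨fun hx => ?_, fun hx => ?_⟩⟩
  · obtain ⟨r, rfl⟩ := hx
    have hT : u.length ≤ poly u.length (u ++ r).length := Nat.le_add_left _ _
    obtain ⟨d, hd⟩ := Nat.exists_eq_add_of_le hT
    unfold AcceptsIn
    rw [show poly u.length (u ++ r).length = d + u.length by omega,
      Function.iterate_add_apply]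
    obtain ⟨h1, -⟩ := run O u r u.length le_rfl
    set c := (step O (mach u))^[u.length] (start (mach u) (u ++ r) []) with hc
    have h2 : (mach u).code c.state = .halt true := code_eq u c.state h1
    have h3 : ∀ d : ℕ, (step O (mach u))^[d] c = c := by
      intro d
      induction d with
      | zero => rfl
      | succ d ih => rw [Function.iterate_succ_apply', ih, step_halt h2]
    rw [h3, h2]
  · have hinv := inv_iter O u x (poly u.length x.length)
    unfold AcceptsIn at hx
    set c := (step O (mach u))^[poly u.length x.length] (start (mach u) x []) with hc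
    have h1 : sta c = u.length := by
      have h2 : code u c.state = .halt true := hx
      rcases lt_trichotomy (sta c) u.length with h | h | h
      · have h' : c.state.val < u.length := h
        rcases hb : u[c.state.val] with _ | _
        · rw [code_false u c.state h' hb] at h2
          cases h2
        · rw [code_true u c.state h' hb] at h2
          cases h2
      · exact h
      · rw [code_gt u c.state h] at h2
        cases h2
    have h3 := hinv h1.le
    rw [h1, List.take_length] at h3
    exact ⟨_, h3.symm⟩

end ESY.AC.CONM
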