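import Pool.Agent.Lib.MP_b9add9_lc.AC.Spec

/-!
# MP_b9add9_lc, row AC, module CRT: acceptance over the decided oracle
-/

set_option linter.unusedSectionVars false
set_option autoImplicit false

namespace ESY.AC.CRTM

open ESY ESY.Conv ESY.Few ESY.AC Set Filter
open ESY.Alg3 (Qy)
open ESY.Alg6 (AE bk ex qv wt bk_mono)

variable [AE]

private theorem dk_loc {N : Machine} {d m : ℕ} {A A' : Oracle} {s : List Bool}
    (hs : s.length ≤ m) (h : ∀ r : List Bool, r.length ≤ bk (m + poly d m) → A r = A' r) :
    dk N d A s = dk N d A' s := Alg6.dk_local (N := N) hs h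

/-- a run of `M` over the decided oracle depends on short strings only -/
private theorem acc_loc (N M : Machine) (d : ℕ) (x w : List Bool) (t m : ℕ)
    (hm : max x.length w.length + t ≤ m) (A A' : Oracle)
    (h : ∀ r : List Bool, r.length ≤ bk (m + poly d m) → A r = A' r)
    (hacc : AcceptsIn (dk N d A) M x w t) : AcceptsIn (dk N d A') M x w t := by
  refine (accepts_congr (O := dk N d A) (O' := dk N d A') fun s hs => ?_).2 hacc
  have h2 := asked_start_len _ _ _ _ _ s hs
  exact (dk_loc (m := m) (by omega) h).symm

theorem specCRT : SpecCRT := by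
  classical
  intro T hT N M d
  refine ⟨?_, ?_, ?_⟩
  · rintro A x ⟨w, t, hacc⟩
    refine ⟨bk (max x.length w.length + t + poly d (max x.length w.length + t)),
      fun A' hA' => ⟨w, t, ?_⟩⟩
    exact acc_loc N M d x w t _ le_rfl A A' (fun r hr => (hA' r hr).symm) hacc
  · intro c x
    obtain ⟨m, hm⟩ : ∃ m, m = x.length + 2 * T c x.length := ⟨_, rfl⟩
    refine ⟨bk (m + poly d m), fun A A' h => ?_⟩
    refine exists_congr fun w => and_congr_right fun hw => ?_
    have h3 : max x.length w.length ≤ x.length + T c x.length := max_le (by omega) (by omega)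
    exact ⟨acc_loc N M d x w _ m (by omega) A A' (fun r hr => (h r hr).symm),
      acc_loc N M d x w _ m (by omega) A' A h⟩
  · refine ⟨fun c n => T c n * (poly d (n + 2 * T c n) *
      (bk (n + 2 * T c n + poly d (n + 2 * T c n)) + 1)), fun c => ?_, ?_⟩
    · have hm : Sub fun n => n + 2 * T c n := sub_add sub_id (sub_mul (sub_const 2) (hT c))
      exact sub_mul (hT c) (sub_mul (sub_poly hm d)
        (sub_add (Alg6.sub_bk (sub_add hm (sub_poly hm d))) (sub_const 1)))
    · rintro c A x ⟨w, hw, hacc⟩
      set n := x.length with hn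
      set m := n + 2 * T c n with hmd
      set l := asked (dk N d A) M (T c n) (start M x w) with hl'
      have hlen : l.length ≤ T c n := asked_card _ _ _ _
      have hsl : ∀ s ∈ l, s.length ≤ m := by
        intro s hs
        have e2 := asked_start_len _ _ _ _ _ s hs
        have e4 : max x.length w.length ≤ n + T c n := max_le (by omega) (by omega)
        omega
      let qs : List Bool → Finset Qy := fun s =>
        (asked (ex A) N (poly d s.length) (start N s [])).toFinset.image fun r => ((true, r) : Qy)
      have hqs : ∀ s ∈ l, ∑ p ∈ qs s, wt p ≤ poly d m * (bk (m + poly d m) + 1) := by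
        intro s hs
        have e1 : (qs s).card ≤ poly d m := by
          refine Finset.card_image_le.trans ((List.toFinset_card_le _).trans
            ((asked_card _ _ _ _).trans ?_))
          unfold poly
          have := hsl s hs
          gcongr
        refine (Finset.sum_le_card_nsmul _ _ (bk (m + poly d m) + 1) fun p hp => ?_).trans ?_
        · obtain ⟨r, hr, rfl⟩ := Finset.mem_image.1 hp
          exact Nat.succ_le_succ (bk_mono (Alg6.dk_len (hsl s hs) (List.mem_toFinset.1 hr)))
        · rw [smul_eq_mul]
          exact Nat.mul_le_mul_right _ e1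
      have hwt : ∑ p ∈ l.toFinset.biUnion qs, wt p ≤
          T c n * (poly d m * (bk (m + poly d m) + 1)) := by
        refine (Alg3.sum_biUnion_le _ _ _).trans ((Finset.sum_le_card_nsmul _ _ _ fun s hs =>
          hqs s (List.mem_toFinset.1 hs)).trans ?_)
        rw [smul_eq_mul]
        exact Nat.mul_le_mul_right _ ((List.toFinset_card_le _).trans hlen)
      refine ⟨l.toFinset.biUnion qs, hwt, fun A' hA' => ⟨w, hw, ?_⟩⟩
      refine (accepts_congr (O := dk N d A) (O' := dk N d A') fun s hs => ?_).2 hacc
      refine Alg6.dk_congr (N := N) (d := d) (A := A) (A' := A') fun r hr => ?_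
      exact hA' (true, r) (Finset.mem_biUnion.2 ⟨s, List.mem_toFinset.2 hs,
        Finset.mem_image.2 ⟨r, List.mem_toFinset.2 hr, rfl⟩⟩)

end ESY.AC.CRTM
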