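import Pool.Agent.Lib.MP_80aaf5_lc.Alg6.Final
import Pool.Agent.Lib.MP_b9add9_lc.Alg2.Hard
import Pool.Agent.Lib.MP_b9add9_lc.Uni.Params
import Pool.Agent.Lib.MP_b9add9_lc.Uni.Defs

/-!
# MP_b9add9_lc, row AC: definitions

As `Alg6`, but a block `v` has two halves: the half `b` consists of the rows whose last bit is `b`.
At most one half of a block has a full row, and the block of the name `np a q` has a full row iff
one of the two statements `pick a true`, `pick a false` is true for `q`; the last bit of the full row
names a true one.
-/

set_option linter.unusedSectionVars false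

namespace ESY.AC

open ESY ESY.Conv ESY.Few
open ESY.Alg2 (tp ln)
open ESY.Alg3 (Ls Qy rs vn)
open ESY.Alg4 (O0 O1 kp Jn)
open ESY.Alg6 (AE bk ex lw qv ql wt Gp Cn St atl)

variable [AE]

/-! ### names and sizes -/

/-- the two statements of an index -/
def pick (a : ℕ) (b : Bool) : ℕ := if b = true then a.unpair.1 else a.unpair.2

/-- length of the two statements -/
noncomputable def lp (a : ℕ) (q : List Bool) : ℕ := ln (pick a true) q + ln (pick a false) q

/-- name of the block of the pair of statements with index `a` for the input `q` -/
noncomputable def np (a : ℕ) (q : List Bool) : List Bool := vn lp a q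

/-- parameter -/
def Mn (n : ℕ) : ℕ := 2 * ((n + 1) * (n + 3) * Cn n)

/-- length of the row names -/
def Nn (v : List Bool) : ℕ := 8 * Mn v.length

/-- level of the blocks of length `n` -/
def lvn (n : ℕ) : ℕ := 2 + 16 * Mn n + n + 5

/-- level of a block: length of its bit names -/
def lvl (v : List Bool) : ℕ := lvn v.length

/-! ### rows and configurations -/

/-- the names of the rows of the blocks of length `n` -/
def Sn (n : ℕ) : Finset (List Bool) :=
  (Ls (8 * Mn n)).filter fun y => true ∈ y ∧ false ∈ y

/-- the rows with last bit `b` -/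
def Sb (b : Bool) (n : ℕ) : Finset (List Bool) := (Sn n).filter fun y => y.getLast? = some b

/-- a configuration of a half block -/
abbrev Cfg : Type := Finset (List Bool) × Finset (List Bool)

/-- the configuration of the half `b` of the block `v` -/
def cfg (A : Oracle) (b : Bool) (v : List Bool) : Cfg :=
  ((Sb b v.length).filter fun y => A (rs Jn v y 0) = true,
    (Sb b v.length).filter fun y => A (rs Jn v y 1) = true)

/-- the bit names of rows -/
def RowBit (s : List Bool) : Prop :=
  ∃ v, ∃ y ∈ Sn v.length, ∃ j ≤ 1, s = rs Jn v y j

/-- a bit name of a row of a block of length at least `n₀` -/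
def RowBitF (n₀ : ℕ) (s : List Bool) : Prop :=
  ∃ v : List Bool, n₀ ≤ v.length ∧ ∃ y ∈ Sn v.length, ∃ j ≤ 1, s = rs Jn v y j

/-- the contribution of a configuration of the block `v` to the query `p` -/
noncomputable def ct (p : Qy) (v : List Bool) (c : Cfg) : Gp p :=
  kp (fun y => Alg6.cf p (rs Jn v y 0)) (fun y => Alg6.cf p (rs Jn v y 1)) c

/-- the half `b` of the block has a full row -/
def FullB (A : Oracle) (b : Bool) (v : List Bool) : Prop := cfg A b v ∈ O1 (Sb b v.length)

/-- no row of the half `b` of the block is full -/
def EmpB (A : Oracle) (b : Bool) (v : List Bool) : Prop := cfg A b v ∈ O0 (Sb b v.length)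

/-! ### worlds -/

open Classical in
/-- the flags -/
noncomputable def flg (s : List Bool) : Bool :=
  match s with
  | true :: false :: e => decide (∃ y v : List Bool, e = tp y (false :: v) ∧ Nn v ≤ y.length)
  | false :: true :: e => decide (∃ α y v : List Bool, e = tp α (false :: tp y (false :: v)) ∧
      Jn v ≤ α.length)
  | false :: false :: e => decide (∃ (i a : ℕ) (q : List Bool), e = List.replicate i true ++
      false :: (List.replicate a true ++ false :: q) ∧ lp a q ≤ i)
  | _ => false

/-- the fixed part -/
noncomputable def Bs (X : Oracle) : Oracle := join X flg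

/-- the worlds -/
structure IsWorld (X A : Oracle) : Prop where
  base : ∀ s, ¬ RowBit s → A s = Bs X s
  uniq : ∀ v, (∀ b, EmpB A b v) ∨ ∃ b, FullB A b v ∧ EmpB A (!b) v
  sound : ∀ a q b, FullB A b (np a q) → St A (pick a b) q
  compl : ∀ a q b, St A (pick a b) q → ∃ b', FullB A b' (np a q)

/-- the block is the block of a true statement -/
def TS (A : Oracle) (v : List Bool) : Prop := ∃ a q b, v = np a q ∧ St A (pick a b) q

open Classical in
/-- the half that has the full row in the canonical configuration -/
noncomputable def sel (A : Oracle) (v : List Bool) : Bool :=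
  decide (∃ a q, v = np a q ∧ St A (pick a true) q)

/-! ### canonical configurations -/

/-- `c0 b v` is a configuration without full row, `c1 b v` one with a full row, of the half `b` of
the block `v`; few queries do not tell `c0 b v` from a configuration with a full row, and they tell
`c1 b v` from the configurations without full row only for few `v`. -/
structure Canon (c0 c1 : Bool → List Bool → Cfg) : Prop where
  m0 : ∀ b v, c0 b v ∈ O0 (Sb b v.length)
  m1 : ∀ b v, c1 b v ∈ O1 (Sb b v.length)
  amb0 : ∀ b v (Q : Finset Qy), ∑ p ∈ Q, wt p ≤ 2 ^ Mn v.length →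
    ∃ f ∈ O1 (Sb b v.length), ∀ p ∈ Q, ct p v f = ct p v (c0 b v)
  amb1 : ∀ b n (Q : Finset Qy), ∑ p ∈ Q, wt p ≤ 2 ^ Mn n → ∀ D : Finset (List Bool),
    (∀ v ∈ D, v.length = n ∧
      ¬ ∃ f ∈ O0 (Sb b v.length), ∀ p ∈ Q, ct p v f = ct p v (c1 b v)) →
    Mn n * D.card ≤ ∑ p ∈ Q, wt p

open Classical in
/-- the canonical configuration of the half `b` of the block `v` in the world `A` -/
noncomputable def cc (c0 c1 : Bool → List Bool → Cfg) (A : Oracle) (b : Bool) (v : List Bool) :
    Cfg := if TS A v ∧ b = sel A v then c1 b v else c0 b v

/-- the true statement blocks of length `n` are ambiguous or certified -/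
def Good (c1 : Bool → List Bool → Cfg) (A : Oracle) (Q : Finset Qy) (n : ℕ) : Prop :=
  ∀ a q, (np a q).length = n → TS A (np a q) →
    (¬ ∃ f ∈ O0 (Sb (sel A (np a q)) (np a q).length), ∀ p ∈ atl Q (lvl (np a q)),
      ct p (np a q) f = ct p (np a q) (c1 (sel A (np a q)) (np a q))) →
    ∀ A', (∀ p ∈ Q, ql p < lvl (np a q) → qv p A' = qv p A) →
      St A' (pick a (sel A (np a q))) q

/-! ### languages and acceptance -/

/-- the test language -/
def LT (A : Oracle) : Set (List Bool) := {x | ∃ b, FullB A b (false :: x)}

open Classical in
/-- the oracle decided by the machine `N` within the time `poly d` over the extended oracle -/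
noncomputable def dk (N : Machine) (d : ℕ) (A : Oracle) : Oracle :=
  fun s => decide (AcceptsIn (ex A) N s [] (poly d s.length))

/-- nondeterministic acceptance -/
def NAc (N : Machine) (d : ℕ) (M : Machine) (T : ℕ → ℕ) (A : Oracle) (x : List Bool) : Prop :=
  ∃ w : List Bool, w.length ≤ T x.length ∧ AcceptsIn (dk N d A) M x w (T x.length)

/-- test inputs -/
def tx (e n : ℕ) : List Bool := List.replicate e true ++ false :: List.replicate n true

end ESY.AC
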