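import Pool.Agent.Lib.MP_80aaf5_lc.Defs

/-!
# Proof systems relative to an oracle
-/

namespace ESY

/-- The machine `M` is a proof system for `S` relative to `O`: `x` is in `S` if and only if `M`
accepts `x` with some second input `w` (a proof of `x`). -/
def ProofSystem (O : Oracle) (M : Machine) (S : Set (List Bool)) : Prop :=
  ∀ x, x ∈ S ↔ ∃ w t, AcceptsIn O M x w t

/-- No proof system for `S` relative to `O` is optimal, not even up to the time bounds `T`: for each
proof system `M` there is a subset `S'` of `S` in `P` relative to `O` such that for every index `c`
there are arbitrarily long `x` in `S'` without a proof `w` of length at most `T c n` with which `M`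
accepts `x` within `T c n` steps. (With the decision procedure for `S'` added to `M`, the members of
`S'` have proofs of polynomial length.) -/
def NoOptimal (T : ℕ → ℕ → ℕ) (O : Oracle) (S : Set (List Bool)) : Prop :=
  ∀ M, ProofSystem O M S → ∃ S' ⊆ S, InP O S' ∧ ∀ c k, ∃ x ∈ S', k ≤ x.length ∧
    ¬ ∃ w : List Bool, w.length ≤ T c x.length ∧ AcceptsIn O M x w (T c x.length)

end ESY
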