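import Pool.Agent.Lib.MP_b9add9_lc.AC.Spec
import Pool.Agent.Lib.MP_b9add9_lc.AC.PSys
import Pool.Agent.Lib.MP_80aaf5_lc.Btw.Closure
import Pool.Agent.Lib.MP_80aaf5_lc.AlgGen.Defs

/-!
# The final argument
-/

set_option linter.unusedSectionVars false

namespace ESY.AC

open ESY ESY.Conv ESY.Few Set Filter
open ESY.Alg3 (Qy)
open ESY.Alg6 (AE ex lw qv wt St)

section

variable [AE]

/-- acceptance by the acceptor with index `i`: without time bound (`i.1 = true`) or within the time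
bound of the index -/
def FINM.Ac (T : ℕ → ℕ → ℕ) (i : Bool × Machine × ℕ × Machine × ℕ) (A : Oracle)
    (x : List Bool) : Prop :=
  if i.1 = true then ∃ w t, AcceptsIn (dk i.2.1 i.2.2.1 A) i.2.2.2.1 x w t
  else NAc i.2.1 i.2.2.1 i.2.2.2.1 (T i.2.2.2.2) A x

/-- the bounded form -/
def FINM.Ac' (T : ℕ → ℕ → ℕ) (i : Bool × Machine × ℕ × Machine × ℕ) (c : ℕ) (A : Oracle)
    (x : List Bool) : Prop :=
  NAc i.2.1 i.2.2.1 i.2.2.2.1 (T (if i.1 = true then c else i.2.2.2.2)) A x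

open FINM

theorem FINM.world (hCRT : SpecCRT) (hGEN : SpecGEN) (X : Oracle) (T : ℕ → ℕ → ℕ)
    (hT : Subexponential T) : ∃ A, IsWorld X A ∧ ∀ i : Bool × Machine × ℕ × Machine × ℕ,
      (∃ x ∈ LT A, Ac T i A x) ∨ ∃ u : List Bool, (∀ x, u <+: x → x ∉ LT A) ∧
        ∀ c k, ∃ x, u <+: x ∧ k ≤ x.length ∧ ¬ Ac' T i c A x := by
  have hne : Nonempty (Bool × Machine × ℕ × Machine × ℕ) :=
    ⟨(true, ⟨0, 0, fun _ => .halt true⟩, 0, ⟨0, 0, fun _ => .halt true⟩, 0)⟩
  obtain ⟨g, hg⟩ := exists_surjective_nat (Bool × Machine × ℕ × Machine × ℕ)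
  have hC := fun N M d => hCRT T hT N M d
  choose hC1 hC2 W hW1 hW2 using hC
  obtain ⟨A, hA, h⟩ := hGEN X (fun e => Ac T (g e)) (fun e => Ac' T (g e))
    (fun e c => W (g e).2.1 (g e).2.2.2.1 (g e).2.2.1 (if (g e).1 = true then c
      else (g e).2.2.2.2))
    (fun e A x hP => by
      simp only [Ac] at hP ⊢
      by_cases hi : (g e).1 = true
      · rw [if_pos hi] at hP
        obtain ⟨m, hm⟩ := hC1 _ _ _ A x hP
        refine ⟨m, fun A' hA' => ?_⟩
        rw [if_pos hi]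
        exact hm A' hA'
      · rw [if_neg hi] at hP
        obtain ⟨m, hm⟩ := hC2 (g e).2.1 (g e).2.2.2.1 (g e).2.2.1 (g e).2.2.2.2 x
        refine ⟨m, fun A' hA' => ?_⟩
        rw [if_neg hi]
        exact (hm A A' hA').1 hP)
    (fun e c x => hC2 _ _ _ _ x)
    (fun e c => hW1 _ _ _ _)
    (fun e c A x hP => by
      obtain ⟨Q, h1, h2⟩ := hW2 _ _ _ _ A x hP
      refine ⟨Q, h1, fun A' hA' => ?_⟩
      have h3 := h2 A' hA'
      simp only [Ac]
      by_cases hi : (g e).1 = true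
      · rw [if_pos hi] at h3 ⊢
        obtain ⟨w, -, h4⟩ := h3
        exact ⟨w, _, h4⟩
      · rw [if_neg hi] at h3 ⊢
        exact h3)
  refine ⟨A, hA, fun i => ?_⟩
  obtain ⟨e, rfl⟩ := hg i
  rcases h e with h1 | ⟨⟨θ, hθ⟩, h2⟩
  · exact Or.inl h1
  · refine Or.inr ⟨tx e θ, ?_, fun c k => ?_⟩
    · rintro x ⟨z, rfl⟩
      exact hθ z
    · obtain ⟨N, hN, h3⟩ := h2 c (max k θ)
      have e1 : k ≤ max k θ := le_max_left _ _
      have e2 : θ ≤ max k θ := le_max_right _ _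
      refine ⟨tx e N, ⟨List.replicate (N - θ) true, ?_⟩, ?_, h3⟩
      · unfold tx
        rw [List.append_assoc, List.cons_append, List.replicate_append_replicate]
        congr 3
        omega
      · unfold tx
        rw [List.length_append, List.length_cons, List.length_replicate, List.length_replicate]
        omega

/-- index of a language -/
theorem FINM.index (A : Oracle) {L : Set (List Bool)} (h : InNP (ex A) L) :
    ∃ a, ∀ q, q ∈ L ↔ St A a q := Alg6.index A true h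

theorem FINM.core (hCRT : SpecCRT) (hGEN : SpecGEN) (hBTO : SpecBTO) (hCON : SpecCON)
    (hRWW : SpecRWW) (hUVM : SpecUVM) (hRDU : SpecRDU) (hMRD : SpecMRD) (X : Oracle)
    (T : ℕ → ℕ → ℕ) (hT : Subexponential T) :
    ∃ (Y : Oracle) (U V L : Set (List Bool)),
      (∀ C D, NPPair (ex (join X Y)) C D → MReduces poly (join X Y) C D U V) ∧
      (∀ S, Separator U V S → ∀ L', InNP (ex (join X Y)) L' → InP (join (join X Y) S) L') ∧
      (∀ L', InNP (ex (join X Y)) L' → InUPk 1 (join X Y) L') ∧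
      ∀ B : Oracle, InP B {s | join X Y s = true} → InP (ex (join X Y)) {s | B s = true} →
        MComplete B U V ∧ DisjointNPPair B U V ∧ NPHard B U V ∧
        (∀ L', InNP B L' → InUPk 1 B L') ∧ InNP B L ∧ ¬ InNTime T B Lᶜ ∧
        NoOptimal T B Lᶜ := by
  obtain ⟨A, hA, hG⟩ := world hCRT hGEN X T hT
  obtain ⟨-, -, -, -, -, -, hj⟩ := hRWW X A hA
  obtain ⟨hUV, hdis, hLT⟩ := hUVM X A hA
  refine ⟨fun s => A (true :: s), Alg6.UV A true, Alg6.UV A false, LT A, ?_⟩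
  rw [← hj]
  have hm : ∀ C D, NPPair (ex A) C D → MReduces poly A C D (Alg6.UV A true) (Alg6.UV A false) := by
    rintro C D ⟨hC, hD, hCD⟩
    obtain ⟨a₁, h1⟩ := index A hC
    obtain ⟨a₂, h2⟩ := index A hD
    exact hMRD X A hA C D a₁ a₂ h1 h2 hCD
  have hr : ∀ S, Separator (Alg6.UV A true) (Alg6.UV A false) S → ∀ L', InNP (ex A) L' →
      InP (join A S) L' := by
    intro S hS L' hL'
    obtain ⟨a, ha⟩ := index A hL'
    exact (hRDU X A hA L' a ha).2 S hS
  have hu : ∀ L', InNP (ex A) L' → InUPk 1 A L' := by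
    intro L' hL'
    obtain ⟨a, ha⟩ := index A hL'
    exact (hRDU X A hA L' a ha).1
  refine ⟨hm, hr, hu, fun B hAB hBE => ?_⟩
  have hU := Btw.btw_np hAB (hUV true).2
  have hV := Btw.btw_np hAB (hUV false).2
  refine ⟨⟨⟨hU, hV, hdis⟩, ?_⟩, ⟨(hUV true).1, (hUV false).1, hU, hV, hdis⟩, ?_, ?_,
    Btw.btw_np hAB hLT, ?_⟩
  · rintro C D ⟨hC, hD, hCD⟩
    obtain ⟨M, c, h1⟩ := hm C D ⟨Btw.btw_np hBE hC, Btw.btw_np hBE hD, hCD⟩
    obtain ⟨M', c', h2⟩ := hBTO A B hAB M c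
    refine ⟨M', c', fun x => ?_⟩
    obtain ⟨y, h3, h4⟩ := h1 x
    exact ⟨y, h2 x y h3, h4⟩
  · exact fun S hS L' hL' => Btw.btw_join S hAB (hr S hS L' (Btw.btw_np hBE hL'))
  · exact fun L' hL' => Btw.btw_up hAB (hu L' (Btw.btw_np hBE hL'))
  · obtain ⟨N, d, hN⟩ := hBE
    have hB : B = dk N d A := by
      classical
      funext s
      rw [Bool.eq_iff_iff]
      unfold dk
      rw [decide_eq_true_iff]
      exact hN s
    subst hB
    constructor
    · rintro ⟨M, c, h⟩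
      rcases hG (false, N, d, M, c) with ⟨x, hx, h1⟩ | ⟨u, h1, h2⟩
      · exact (h x).2 h1 hx
      · obtain ⟨x, hx, -, h3⟩ := h2 0 0
        exact h3 ((h x).1 (h1 x hx))
    · intro M hM
      rcases hG (true, N, d, M, 0) with ⟨x, hx, h1⟩ | ⟨u, h1, h2⟩
      · exact absurd hx ((hM x).2 h1)
      · refine ⟨{x | u <+: x}, fun x hx => h1 x hx, hCON _ u, fun c k => ?_⟩
        obtain ⟨x, hx, hk, h3⟩ := h2 c k
        exact ⟨x, hx, hk, h3⟩

end

/-- The theorem. -/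
theorem FINM.final (hAll : ∀ [AE], SpecCRT ∧ SpecGEN ∧ SpecBTO ∧ SpecCON ∧ SpecRWW ∧ SpecUVM ∧
    SpecRDU ∧ SpecMRD) (E : Oracle → Oracle) (hE : AdditiveExt E) (X : Oracle) (T : ℕ → ℕ → ℕ)
    (hT : Subexponential T) : ∃ (Y : Oracle) (U V L : Set (List Bool)),
      (∀ C D, NPPair (join (join X Y) (E (join X Y))) C D →
        MReduces poly (join X Y) C D U V) ∧
      (∀ S, Separator U V S → ∀ L', InNP (join (join X Y) (E (join X Y))) L' →
        InP (join (join X Y) S) L') ∧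
      (∀ L', InNP (join (join X Y) (E (join X Y))) L' → InUPk 1 (join X Y) L') ∧
      ∀ B : Oracle, InP B {s | join X Y s = true} →
        InP (join (join X Y) (E (join X Y))) {s | B s = true} →
        MComplete B U V ∧ DisjointNPPair B U V ∧ NPHard B U V ∧
        (∀ L', InNP B L' → InUPk 1 B L') ∧ InNP B L ∧ ¬ InNTime T B Lᶜ ∧
        NoOptimal T B Lᶜ := by
  obtain ⟨k, hk⟩ := hE
  let I : AE := ⟨E, k, hk⟩
  obtain ⟨h1, h2, h3, h4, h5, h6, h7, h8⟩ := @hAll I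
  exact core h1 h2 h3 h4 h5 h6 h7 h8 X T hT

end ESY.AC
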