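import Pool.Agent.Lib.MP_b9add9_lc.AC.Spec

/-!
# The generic world
-/

set_option linter.unusedSectionVars false

namespace ESY.AC.GENM

open ESY ESY.Conv ESY.Few ESY.AC Set Filter
open ESY.Alg3 (Qy vn)
open ESY.Alg6 (AE qv wt St)

variable [AE]

/-- unsound -/
def Uns (P : Oracle → List Bool → Prop) (A : Oracle) : Prop := ∃ x ∈ LT A, P A x

/-- the blocks that belong to the acceptor `e` -/
def K (e : ℕ) : Set (List Bool) :=
  {v | ∃ z, v = false :: (List.replicate e true ++ false :: z)}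

/-- the worlds of a condition -/
def Wd (X A : Oracle) (m : ℕ) (Z : Set (List Bool)) : Set Oracle :=
  {A' | IsWorld X A' ∧ (∀ s : List Bool, s.length < lvn m → A' s = A s) ∧
    ∀ v ∈ Z, ∀ b, EmpB A' b v}

/-- conditions -/
structure Cd (X : Oracle) (P : ℕ → Oracle → List Bool → Prop) where
  A : Oracle
  m : ℕ
  Z : Set (List Bool)
  hA : A ∈ Wd X A m Z
  hZ : ∀ v ∈ Z, ∃ z, v = false :: z
  inv : ∀ e, (Z ∩ K e).Nonempty → (∃ θ, ∀ z, false :: (tx e θ ++ z) ∈ Z) ∧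
    ∀ A' ∈ Wd X A m (Z \ K e), ¬ Uns (P e) A'

/-- the worlds of a condition -/
def Cd.W {X : Oracle} {P : ℕ → Oracle → List Bool → Prop} (C : Cd X P) : Set Oracle :=
  Wd X C.A C.m C.Z

theorem K_inj {e e' : ℕ} {v : List Bool} (h : v ∈ K e) (h' : v ∈ K e') : e = e' := by
  obtain ⟨z, rfl⟩ := h
  obtain ⟨z', h'⟩ := h'
  exact (Alg2.rep_inj (List.cons.inj h').2).1

theorem tx_mem_K (e θ : ℕ) (z : List Bool) : false :: (tx e θ ++ z) ∈ K e :=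
  ⟨List.replicate θ true ++ z, by unfold tx; simp⟩

theorem not_np {v : List Bool} (h : ∃ z, v = false :: z) (a : ℕ) (q : List Bool) :
    v ≠ np a q := by
  obtain ⟨z, rfl⟩ := h
  exact fun h => absurd (List.cons.inj h).1 (by decide)

variable {X : Oracle} {P : ℕ → Oracle → List Bool → Prop}

theorem lvn_mono (hLOC : SpecLOC) {n n' : ℕ} (h : n ≤ n') : lvn n ≤ lvn n' := by
  obtain ⟨-, -, -, -, -, -, -, h8, -, -⟩ := hLOC
  rcases Nat.eq_or_lt_of_le h with rfl | h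
  · exact le_rfl
  · exact (h8 _ _ h).le

theorem Wd_mono (hLOC : SpecLOC) {A A₁ : Oracle} {m m₁ : ℕ} {Z Z₁ : Set (List Bool)}
    (hm : m ≤ m₁) (hA : ∀ s : List Bool, s.length < lvn m → A₁ s = A s) (hZ : Z ⊆ Z₁) :
    Wd X A₁ m₁ Z₁ ⊆ Wd X A m Z := by
  rintro A' ⟨h1, h2, h3⟩
  exact ⟨h1, fun s hs => (h2 s (lt_of_lt_of_le hs (lvn_mono hLOC hm))).trans (hA s hs),
    fun v hv => h3 v (hZ hv)⟩

/-- passing to a member -/
def Cd.ext (hLOC : SpecLOC) (C : Cd X P) {A' : Oracle} (hA' : A' ∈ C.W) {m' : ℕ}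
    (hm : C.m ≤ m') : Cd X P where
  A := A'
  m := m'
  Z := C.Z
  hA := ⟨hA'.1, fun _ _ => rfl, hA'.2.2⟩
  hZ := C.hZ
  inv := by
    intro e he
    obtain ⟨h1, h2⟩ := C.inv e he
    exact ⟨h1, fun A'' hA'' => h2 A'' (Wd_mono hLOC hm hA'.2.1 Subset.rfl hA'')⟩

theorem ext_sub (hLOC : SpecLOC) (C : Cd X P) {A' : Oracle} (hA' : A' ∈ C.W) {m' : ℕ}
    (hm : C.m ≤ m') : (C.ext hLOC hA' hm).W ⊆ C.W :=
  Wd_mono hLOC hm hA'.2.1 Subset.rfl

theorem ext_W (hLOC : SpecLOC) (C : Cd X P) {A' : Oracle} (hA' : A' ∈ C.W) {m' : ℕ}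
    (hm : C.m ≤ m') : (C.ext hLOC hA' hm).W = Wd X A' m' C.Z := rfl

theorem emp_low (hLOC : SpecLOC) {A A' : Oracle} {m : ℕ}
    (h : ∀ s : List Bool, s.length < lvn m → A' s = A s) {b : Bool} {v : List Bool}
    (hv : v.length < m) : EmpB A' b v ↔ EmpB A b v := by
  obtain ⟨-, -, -, -, h5, -, -, h8, -, -⟩ := hLOC
  have h1 : cfg A' b v = cfg A b v := h5 A' A b v fun s hs => h s (by
    rw [hs]
    exact h8 _ _ hv)
  unfold EmpB
  rw [h1]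

theorem full_low (hLOC : SpecLOC) {A A' : Oracle} {m : ℕ}
    (h : ∀ s : List Bool, s.length < lvn m → A' s = A s) {b : Bool} {v : List Bool}
    (hv : v.length < m) : FullB A' b v ↔ FullB A b v := by
  obtain ⟨-, -, -, -, h5, -, -, h8, -, -⟩ := hLOC
  have h1 : cfg A' b v = cfg A b v := h5 A' A b v fun s hs => h s (by
    rw [hs]
    exact h8 _ _ hv)
  unfold FullB
  rw [h1]

theorem emp_can {c0 c1 : Bool → List Bool → Cfg} (hc : Canon c0 c1) {A : Oracle} {b : Bool}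
    {v : List Bool} (h : cfg A b v = cc c0 c1 A b v) (hv : ∀ a q, v ≠ np a q) : EmpB A b v := by
  unfold EmpB
  rw [h, cc, if_neg]
  · exact hc.m0 b v
  · rintro ⟨⟨a, q, b', e, -⟩, -⟩
    exact hv a q e

/-- the canonical world above `n` is in the condition -/
theorem can_mem (hLOC : SpecLOC) (hCNW : SpecCNW) {c0 c1 : Bool → List Bool → Cfg}
    (hc : Canon c0 c1) (C : Cd X P) {n : ℕ} (hn : C.m ≤ n) : ∃ A, A ∈ C.W ∧
      (∀ s : List Bool, s.length < lvn n → A s = C.A s) ∧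
      ∀ b v, n ≤ v.length → cfg A b v = cc c0 c1 A b v := by
  obtain ⟨A, h1, h2, h3⟩ := (hCNW c0 c1 hc X).1 C.A C.hA.1 n
  refine ⟨A, ⟨h1, fun s hs => h2 s (lt_of_lt_of_le hs (lvn_mono hLOC hn)), fun v hv b => ?_⟩,
    h2, h3⟩
  by_cases hvn : v.length < n
  · exact (emp_low hLOC h2 hvn).2 (C.hA.2.2 v hv b)
  · exact emp_can hc (h3 b v (not_lt.1 hvn)) (not_np (C.hZ v hv))

/-- adding the cone of `e` -/
theorem add_cone (hLOC : SpecLOC) (hCNW : SpecCNW) {c0 c1 : Bool → List Bool → Cfg}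
    (hc : Canon c0 c1) (C : Cd X P) (e : ℕ) (hU : ∀ A' ∈ C.W, ¬ Uns (P e) A') :
    ∃ C' : Cd X P, C'.W ⊆ C.W ∧ C.m ≤ C'.m ∧ (C'.Z ∩ K e).Nonempty := by
  by_cases hne : (C.Z ∩ K e).Nonempty
  · exact ⟨C, Subset.rfl, le_rfl, hne⟩
  obtain ⟨A₂, hA₂, hag, hcan⟩ := can_mem hLOC hCNW hc C (le_refl C.m)
  set Z₁ : Set (List Bool) := C.Z ∪ {v | ∃ z, v = false :: (tx e C.m ++ z)} with hZ₁
  have hsub : C.Z ⊆ Z₁ := subset_union_left
  refine ⟨{ A := A₂, m := C.m, Z := Z₁, hA := ⟨hA₂.1, fun _ _ => rfl, ?_⟩, hZ := ?_, inv := ?_ },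
    Wd_mono hLOC le_rfl hag hsub, le_rfl, ⟨false :: (tx e C.m ++ []), Or.inr ⟨[], rfl⟩,
      tx_mem_K e _ _⟩⟩
  · rintro v (hv | ⟨z, rfl⟩) b
    · exact hA₂.2.2 v hv b
    · refine emp_can hc (hcan b _ ?_) (not_np ⟨_, rfl⟩)
      unfold tx
      simp only [List.length_cons, List.length_append, List.length_replicate]
      omega
  · rintro v (hv | ⟨z, rfl⟩)
    · exact C.hZ v hv
    · exact ⟨_, rfl⟩
  · intro e' he'
    by_cases hee : e' = e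
    · subst hee
      refine ⟨⟨C.m, fun z => Or.inr ⟨z, rfl⟩⟩, fun A' hA' => hU A' ?_⟩
      have hsub2 : C.Z ⊆ Z₁ \ K e' := fun v hv => ⟨hsub hv, fun hk => hne ⟨v, hv, hk⟩⟩
      exact Wd_mono hLOC le_rfl hag hsub2 hA'
    · have h1 : (C.Z ∩ K e').Nonempty := by
        obtain ⟨v, hv | ⟨z, rfl⟩, hk⟩ := he'
        · exact ⟨v, hv, hk⟩
        · exact absurd (K_inj hk (tx_mem_K e _ _)) hee
      obtain ⟨⟨θ, h2⟩, h3⟩ := C.inv e' h1
      exact ⟨⟨θ, fun z => hsub (h2 z)⟩, fun A' hA' => h3 A'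
        (Wd_mono hLOC le_rfl hag (sdiff_subset_sdiff_left hsub) hA')⟩

variable {P' : ℕ → ℕ → Oracle → List Bool → Prop} {W : ℕ → ℕ → ℕ → ℕ}

theorem step (hLOC : SpecLOC) (hCNW : SpecCNW) (hSWI : SpecSWI)
    {c0 c1 : Bool → List Bool → Cfg} (hc : Canon c0 c1)
    (H1 : ∀ e A x, P e A x → ∃ m : ℕ, ∀ A' : Oracle,
      (∀ s : List Bool, s.length ≤ m → A' s = A s) → P e A' x)
    (H2 : ∀ e c x, ∃ m : ℕ, ∀ A A' : Oracle,
      (∀ s : List Bool, s.length ≤ m → A' s = A s) → (P' e c A x ↔ P' e c A' x))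
    (H3 : ∀ e c, Sub (W e c))
    (H4 : ∀ e c A x, P' e c A x → ∃ Q : Finset Qy, ∑ p ∈ Q, wt p ≤ W e c x.length ∧
      ∀ A' : Oracle, (∀ p ∈ Q, qv p A' = qv p A) → P e A' x)
    (C : Cd X P) (e c k : ℕ) : ∃ C' : Cd X P, C'.W ⊆ C.W ∧
      ((∀ A' ∈ C'.W, Uns (P e) A') ∨ ((C'.Z ∩ K e).Nonempty ∧
        ∃ N, k ≤ N ∧ ∀ A' ∈ C'.W, ¬ P' e c A' (tx e N))) := by
  have hle : ∀ n : ℕ, n ≤ lvn n := fun n => (hLOC.2.2.2.2.2.2.2.2.1 n).2
  by_cases hU : ∃ A' ∈ C.W, Uns (P e) A'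
  · obtain ⟨A', hA', x, ⟨b, hx⟩, hP⟩ := hU
    obtain ⟨m₁, hm₁⟩ := H1 e A' x hP
    obtain ⟨m', hm'⟩ : ∃ m', m' = C.m + (m₁ + 1) + (x.length + 2) := ⟨_, rfl⟩
    have hmm : C.m ≤ m' := by omega
    refine ⟨C.ext hLOC hA' hmm, ext_sub hLOC C hA' hmm, Or.inl ?_⟩
    rw [ext_W]
    rintro A'' ⟨-, h2, -⟩
    refine ⟨x, ⟨b, (full_low hLOC h2 ?_).2 hx⟩, hm₁ A'' fun s hs => h2 s ?_⟩
    · rw [List.length_cons]
      omega
    · have := hle m'
      omega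
  · have hU' : ∀ A' ∈ C.W, ¬ Uns (P e) A' := fun A' hA' h => hU ⟨A', hA', h⟩
    obtain ⟨C₁, hC₁, -, hne⟩ := add_cone hLOC hCNW hc C e hU'
    obtain ⟨⟨θ, hθ⟩, hinv⟩ := C₁.inv e hne
    have hsub : Sub fun n => 2 * W e c n := sub_mul (sub_const 2) (H3 e c)
    obtain ⟨n, hn1, hn2⟩ := ((hsub 1).and (eventually_ge_atTop (e + 1 + k + C₁.m))).exists
    simp only [pow_one] at hn1
    obtain ⟨N, hN⟩ : ∃ N, n = e + (N + 1) := ⟨n - e - 1, by omega⟩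
    have hxl : (tx e N).length = n := by
      unfold tx
      rw [List.length_append, List.length_cons, List.length_replicate, List.length_replicate, hN]
    have hv₀l : (false :: tx e N).length = n + 1 := by rw [List.length_cons, hxl]
    have hv₀n : ∀ a q, false :: tx e N ≠ np a q := not_np ⟨_, rfl⟩
    have hv₀K : false :: tx e N ∈ K e := ⟨List.replicate N true, rfl⟩
    obtain ⟨A₃, hA₃, hag3, hcan3⟩ := can_mem hLOC hCNW hc C₁ (n := n + 1) (by omega)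
    have hnot : ¬ P' e c A₃ (tx e N) := by
      intro hP'
      obtain ⟨Q, hQ1, hQ2⟩ := H4 e c A₃ _ hP'
      rw [hxl] at hQ1
      obtain ⟨A₄, h1, h2, h3, h4, h5⟩ := hSWI c0 c1 hc X A₃ hA₃.1 (n + 1) hcan3 Q
        (fun j hj => by
          have e1 := (hLOC.2.2.2.2.2.2.2.2.1 j).1
          have e2 : 2 ^ n ≤ 2 ^ Mn j := Nat.pow_le_pow_right (by norm_num) (by omega)
          exact (Nat.mul_le_mul_left 2 hQ1).trans (hn1.trans e2))
        (false :: tx e N) hv₀l.ge hv₀n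
      refine hinv A₄ ⟨h1, fun s hs => ?_, fun v hv b => ?_⟩ ⟨tx e N, ⟨true, h4⟩, hQ2 A₄ h3⟩
      · rw [h2 s (lt_of_lt_of_le hs (lvn_mono hLOC (by omega)))]
        exact hag3 s (lt_of_lt_of_le hs (lvn_mono hLOC (by omega)))
      · by_cases hvn : v.length < n + 1
        · exact (emp_low hLOC h2 hvn).2 (hA₃.2.2 v hv.1 b)
        · exact h5 v (not_lt.1 hvn) (not_np (C₁.hZ v hv.1)) (fun he => hv.2 (he ▸ hv₀K)) b
    obtain ⟨m₂, hm₂⟩ := H2 e c (tx e N)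
    obtain ⟨m', hm'⟩ : ∃ m', m' = C₁.m + (m₂ + 1) := ⟨_, rfl⟩
    have hmm : C₁.m ≤ m' := by omega
    refine ⟨C₁.ext hLOC hA₃ hmm, (ext_sub hLOC C₁ hA₃ hmm).trans hC₁,
      Or.inr ⟨hne, N, by omega, fun A' hA' hP => hnot ?_⟩⟩
    rw [ext_W] at hA'
    refine (hm₂ A₃ A' fun s hs => hA'.2.1 s ?_).2 hP
    have := hle m'
    omega

/-- the first condition -/
def C0 {X : Oracle} (P : ℕ → Oracle → List Bool → Prop) {A₀ : Oracle}
    (hA₀ : IsWorld X A₀) : Cd X P where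
  A := A₀
  m := 0
  Z := ∅
  hA := ⟨hA₀, fun _ _ => rfl, fun _ hv => hv.elim⟩
  hZ := fun _ hv => hv.elim
  inv := fun _ he => by
    obtain ⟨v, hv, -⟩ := he
    exact hv.elim

theorem specGEN (hLOC : SpecLOC) (hCAN : SpecCAN) (hCNW : SpecCNW) (hSWI : SpecSWI)
    (hCLS : SpecCLS) : SpecGEN := by
  intro X P P' W H1 H2 H3 H4
  obtain ⟨c0, c1, hc⟩ := hCAN
  have hstep := fun (C : Cd X P) (i : ℕ) => step hLOC hCNW hSWI hc H1 H2 H3 H4 C i.unpair.1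
    i.unpair.2.unpair.1 i.unpair.2.unpair.2
  choose F hF1 hF2 using hstep
  obtain ⟨A₀, hA₀⟩ := (hCNW c0 c1 hc X).2
  obtain ⟨C, hCs⟩ : ∃ C : ℕ → Cd X P, ∀ i, C (i + 1) = F (C i) i :=
    ⟨fun i => Nat.rec (C0 P hA₀) (fun i Ci => F Ci i) i, fun i => rfl⟩
  have hcl : ∀ i, IsClosed (C i).W := by
    intro i
    obtain ⟨h1, h2, h3⟩ := hCLS X
    have e : (C i).W = {A : Oracle | IsWorld X A} ∩
        ({A : Oracle | ∀ s : List Bool, s.length < lvn (C i).m → A s = (C i).A s} ∩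
        ⋂ v ∈ (C i).Z, ⋂ b, {A : Oracle | EmpB A b v}) := by
      ext A
      simp only [Cd.W, Wd, mem_setOf_eq, mem_inter_iff, mem_iInter]
    rw [e]
    exact h1.inter ((h3 _ _).inter (isClosed_biInter fun v _ => isClosed_iInter fun b => h2 b v))
  obtain ⟨A, hA⟩ := IsCompact.nonempty_iInter_of_sequence_nonempty_isCompact_isClosed
    (fun i => (C i).W) (fun i => by
      have h := hF1 (C i) i
      rw [← hCs] at h
      exact h) (fun i => ⟨(C i).A, (C i).hA⟩)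
    ((hcl 0).isCompact) hcl
  rw [mem_iInter] at hA
  refine ⟨A, (hA 0).1, fun e => ?_⟩
  by_cases hU : Uns (P e) A
  · exact Or.inl hU
  right
  have key : ∀ c k, ∃ i : ℕ, ((C i).Z ∩ K e).Nonempty ∧ ∃ N, k ≤ N ∧ ¬ P' e c A (tx e N) := by
    intro c k
    obtain ⟨i, hi⟩ : ∃ i, i = Nat.pair e (Nat.pair c k) := ⟨_, rfl⟩
    have h1 := hF2 (C i) i
    rw [← hCs] at h1
    have e1 : i.unpair.1 = e := by rw [hi, Nat.unpair_pair]
    have e2 : i.unpair.2.unpair.1 = c := by rw [hi, Nat.unpair_pair, Nat.unpair_pair]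
    have e3 : i.unpair.2.unpair.2 = k := by rw [hi, Nat.unpair_pair, Nat.unpair_pair]
    rw [e1, e2, e3] at h1
    rcases h1 with h1 | ⟨h1, N, h2, h3⟩
    · exact absurd (h1 A (hA (i + 1))) hU
    · exact ⟨i + 1, h1, N, h2, h3 A (hA (i + 1))⟩
  refine ⟨?_, fun c k => ?_⟩
  · obtain ⟨i, hi, -⟩ := key 0 0
    obtain ⟨⟨θ, hθ⟩, -⟩ := (C i).inv e hi
    refine ⟨θ, fun z hz => ?_⟩
    obtain ⟨b, hb⟩ := hz
    exact hLOC.2.2.2.2.2.2.1 A b _ ((hA i).2.2 _ (hθ z) b) hb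
  · obtain ⟨i, -, hN⟩ := key c k
    exact hN

end ESY.AC.GENM
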