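import Pool.Agent.Lib.MP_b9add9_lc.AC.Spec

/-!
# MP_b9add9_lc, row AC, module LOC: names and locality
-/

set_option linter.unusedSectionVars false

namespace ESY.AC.LOCM

open ESY ESY.Conv ESY.Few ESY.AC
open ESY.Alg2 (tp ln)
open ESY.Alg3 (Ls mem_Ls Qy rs vn rs_length rs_inj)
open ESY.Alg4 (O0 O1 kp Jn mem_O0 mem_O1)
open ESY.Alg6 (AE bk ex lw qv ql wt Gp Cn St atl cn_mono bk_mono bk_lt_mn)

variable [AE]

theorem mn_mono {n n' : ℕ} (h : n ≤ n') : Mn n ≤ Mn n' :=
  Nat.mul_le_mul_left _ (Nat.mul_le_mul (Nat.mul_le_mul (by omega) (by omega)) (cn_mono h))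

theorem lvn_strict {n n' : ℕ} (h : n < n') : lvn n < lvn n' := by
  have := mn_mono h.le
  unfold lvn
  omega

theorem mn_eq (n : ℕ) : Mn n = 2 * Alg6.Mn n := rfl

theorem mem_Sn {n : ℕ} {y : List Bool} :
    y ∈ Sn n ↔ y.length = 8 * Mn n ∧ true ∈ y ∧ false ∈ y := by
  rw [Sn, Finset.mem_filter, mem_Ls]

theorem mem_Sb {b : Bool} {n : ℕ} {y : List Bool} :
    y ∈ Sb b n ↔ y ∈ Sn n ∧ y.getLast? = some b := by
  rw [Sb, Finset.mem_filter]

theorem rs_len {v y : List Bool} (hy : y ∈ Sn v.length) {j : ℕ} (hj : j ≤ 1) :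
    (rs Jn v y j).length = lvl v := by
  rw [rs_length Jn v y hj, (mem_Sn.1 hy).1]
  unfold lvl lvn Jn
  ring

theorem cfg_congr {A A' : Oracle} {b : Bool} {v : List Bool}
    (h : ∀ s : List Bool, s.length = lvl v → A s = A' s) : cfg A b v = cfg A' b v := by
  unfold cfg
  congr 1
  · refine Finset.filter_congr fun y hy => ?_
    rw [h _ (rs_len (mem_Sb.1 hy).1 (Nat.zero_le _))]
  · refine Finset.filter_congr fun y hy => ?_
    rw [h _ (rs_len (mem_Sb.1 hy).1 le_rfl)]

theorem np_inj {a a' : ℕ} {q q' : List Bool} (h : np a q = np a' q') : a = a' ∧ q = q' :=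
  Alg2.rep_inj (Alg2.rep_inj (List.cons.inj h).2).2

theorem lp_le_np (a : ℕ) (q : List Bool) : lp a q ≤ (np a q).length := by
  unfold np vn
  rw [List.length_cons, List.length_append, List.length_replicate]
  omega

theorem ln_le_np (a : ℕ) (q : List Bool) (b : Bool) : ln (pick a b) q ≤ (np a q).length := by
  refine le_trans ?_ (lp_le_np a q)
  unfold lp
  cases b <;> omega

theorem lvl_ge (v : List Bool) : bk (2 * v.length) < lvl v := by
  have := bk_lt_mn v.length
  have h2 := mn_eq v.length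
  unfold lvl lvn
  omega

theorem ln_lvl (a : ℕ) (q : List Bool) (b : Bool) :
    bk (2 * ln (pick a b) q) < lvl (np a q) := by
  have h2 := ln_le_np a q b
  have h3 := lvl_ge (np a q)
  have h4 : bk (2 * ln (pick a b) q) ≤ bk (2 * (np a q).length) := bk_mono (by omega)
  omega

theorem ln_cn (a : ℕ) (q : List Bool) (b : Bool) :
    ln (pick a b) q * (bk (2 * ln (pick a b) q) + 1) ≤ Cn (np a q).length := by
  have h2 := ln_le_np a q b
  exact Nat.mul_le_mul (by omega) (Nat.succ_le_succ (bk_mono (by omega)))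

theorem not_full {A : Oracle} {b : Bool} {v : List Bool} (h : EmpB A b v) : ¬ FullB A b v := by
  intro h'
  have h1 := (mem_O0.1 h).2
  have h2 := (mem_O1.1 h').2
  rw [Finset.disjoint_iff_inter_eq_empty.1 h1] at h2
  exact absurd h2 (by decide)

theorem st_np (hCER : SpecCER) {A A' : Oracle} {a : ℕ} {q : List Bool} {b : Bool}
    (h : ∀ s : List Bool, s.length < lvl (np a q) → A s = A' s) :
    St A (pick a b) q ↔ St A' (pick a b) q :=
  hCER.2 A A' (pick a b) q fun s hs => h s (lt_of_le_of_lt hs (ln_lvl a q b))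

theorem specLOC (hCER : SpecCER) : SpecLOC := by
  classical
  refine ⟨fun a a' q q' h => np_inj h, fun a q b => ⟨ln_le_np a q b, ln_lvl a q b, ln_cn a q b⟩,
    fun A A' v h => ⟨?_, ?_⟩, fun A A' a q b h => st_np hCER h, fun A A' b v h => cfg_congr h,
    fun A a q h => ?_, fun A b v h => not_full h, fun n n' h => lvn_strict h, fun n => ⟨?_, ?_⟩,
    fun n n' h => mn_mono h⟩
  · unfold TS
    refine exists_congr fun a => exists_congr fun q => exists_congr fun b => ?_
    constructor
    · rintro ⟨rfl, hs⟩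
      exact ⟨rfl, (st_np hCER h).1 hs⟩
    · rintro ⟨rfl, hs⟩
      exact ⟨rfl, (st_np hCER h).2 hs⟩
  · unfold sel
    refine decide_eq_decide.2 (exists_congr fun a => exists_congr fun q => ?_)
    constructor
    · rintro ⟨rfl, hs⟩
      exact ⟨rfl, (st_np hCER h).1 hs⟩
    · rintro ⟨rfl, hs⟩
      exact ⟨rfl, (st_np hCER h).2 hs⟩
  · by_cases hT : St A (pick a true) q
    · have hsel : sel A (np a q) = true := by
        unfold sel
        rw [decide_eq_true_eq]
        exact ⟨a, q, rfl, hT⟩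
      rw [hsel]
      exact hT
    · have hsel : sel A (np a q) = false := by
        unfold sel
        rw [decide_eq_false_iff_not]
        rintro ⟨a', q', e, hs⟩
        obtain ⟨e1, e2⟩ := np_inj e
        subst e1 e2
        exact hT hs
      rw [hsel]
      obtain ⟨a', q', b, e, hs⟩ := h
      obtain ⟨e1, e2⟩ := np_inj e
      subst e1 e2
      cases b
      · exact hs
      · exact absurd hs hT
  · have h1 := Alg6.mn_ge n
    have h2 := mn_eq n
    omega
  · unfold lvn
    omega

end ESY.AC.LOCM
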