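import Pool.Agent.Lib.MP_b9add9_lc.AC.Spec

/-!
# MP_b9add9_lc, row AC, module MRD: the pair is complete
-/

set_option linter.unusedSectionVars false
set_option autoImplicit false

namespace ESY.AC.MRDM

open ESY ESY.Conv ESY.Few ESY.AC
open ESY.Alg2 (tp ln tp_inj)
open ESY.Alg3 (Ls Qy rs vn AllOnes Flag0 Flag1 Flag2)
open ESY.Alg4 (O0 O1 kp Jn)
open ESY.Alg6 (AE bk ex lw qv ql wt Gp Cn St atl)

variable [AE]

variable {X A : Oracle}

theorem pick_true (a₁ a₂ : ℕ) : pick (Nat.pair a₁ a₂) true = a₁ := by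
  unfold pick
  rw [if_pos rfl, Nat.unpair_pair]

theorem pick_false (a₁ a₂ : ℕ) : pick (Nat.pair a₁ a₂) false = a₂ := by
  unfold pick
  rw [if_neg (by decide), Nat.unpair_pair]

theorem bound (a : ℕ) : ∃ c, ∀ q : List Bool, 12 * lp a q + 14 + a + 2 ≤ poly c q.length := by
  have h2 : ∀ a : ℕ, PB fun n => poly (nu a.div2).2 n + 1 + (a.div2 + 1 + n) := fun a =>
    pb_add (pb_add (pb_poly _) (pb_const 1)) (pb_add (pb_const _) pb_id)
  obtain ⟨c, hc⟩ := pb_add (pb_add (pb_add (pb_mul (pb_const 12)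
    (pb_add (h2 (pick a true)) (h2 (pick a false)))) (pb_const 14)) (pb_const a)) (pb_const 2)
  refine ⟨c, fun q => ?_⟩
  have h3 := hc q.length
  simp only at h3
  rw [← Alg6.ln_eq, ← Alg6.ln_eq] at h3
  exact h3

theorem mem_UV {v : List Bool} {b : Bool} {y : List Bool} (hy : AllOnes Jn A v y)
    (hb : y.getLast? = some b) : false :: v ∈ Alg6.UV A b := by
  obtain ⟨l, hl⟩ : ∃ l, y = l ++ [b] := by
    rw [List.getLast?_eq_some_iff] at hb
    exact hb
  have h := Alg6.uv_mk (A := A) (l := l) (h := []) (v := v) (b := b) (by rw [← hl]; exact hy)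
  exact h

/-- **Module MRD**. -/
theorem specMRD (hRWW : SpecRWW) (hOUT : SpecOUT) : SpecMRD := by
  intro X A hA C D a₁ a₂ hC hD hdis
  obtain ⟨-, hrow, -, hF0, -⟩ := hRWW X A hA
  obtain ⟨M, hM⟩ := hOUT (Nat.pair a₁ a₂)
  obtain ⟨c, hc⟩ := bound (Nat.pair a₁ a₂)
  refine ⟨M, c, fun x => ⟨false :: np (Nat.pair a₁ a₂) x, hM lp A hF0 x _ (hc x), ?_, ?_⟩⟩
  · intro hx
    have h1 : St A (pick (Nat.pair a₁ a₂) true) x := by
      rw [pick_true]
      exact (hC x).1 hx
    obtain ⟨b, hb⟩ := hA.compl _ _ _ h1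
    have hbt : b = true := by
      cases b with
      | true => rfl
      | false =>
        have h2 := hA.sound _ _ _ hb
        rw [pick_false] at h2
        exact absurd ((hD x).2 h2) (Set.disjoint_left.1 hdis hx)
    rw [hbt] at hb
    obtain ⟨y, hy, hyb⟩ := hrow _ _ hb
    exact mem_UV hy hyb
  · intro hx
    have h1 : St A (pick (Nat.pair a₁ a₂) false) x := by
      rw [pick_false]
      exact (hD x).1 hx
    obtain ⟨b, hb⟩ := hA.compl _ _ _ h1
    have hbt : b = false := by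
      cases b with
      | false => rfl
      | true =>
        have h2 := hA.sound _ _ _ hb
        rw [pick_true] at h2
        exact absurd hx (Set.disjoint_left.1 hdis ((hC x).2 h2))
    rw [hbt] at hb
    obtain ⟨y, hy, hyb⟩ := hrow _ _ hb
    exact mem_UV hy hyb

end ESY.AC.MRDM
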