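import Pool.Agent.Lib.MP_b9add9_lc.AC.Spec
import Pool.Agent.Lib.MP_b9add9_lc.Alg2.Pair
import Pool.Agent.Lib.MP_80aaf5_lc.Alg3.MchProof

/-!
# MP_b9add9_lc, row AC: module OUT

The machine that writes the name of a statement.
-/

namespace ESY.AC.OUTM

open ESY ESY.Conv ESY.Few ESY.Alg3 ESY.Alg3.MchM

/-- the code of the machine -/
def ocode : Fin 15 → Instr 2 15 := ![
    .push 0 false 1,
    .push 0 false 2,
    .push 0 false 3,
    .push 0 true 4,
    .query 0 5 9,
    .pop 0 6 6 6,
    .pop 0 7 7 7,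
    .pop 0 8 8 8,
    .push 0 true 1,
    .pop 0 10 10 10,
    .pop 0 11 11 11,
    .pop 0 12 12 12,
    .push 0 true 13,
    .push 0 false 14,
    .halt true]

variable {Q : Oracle}

theorem ask (a : ℕ) (q : List Bool) (i : ℕ) (x : List Bool) :
    Go Q 0 3 (Conv.cf ocode 1 (ps a q i) x)
      (Conv.cf ocode 4 (true :: false :: false :: ps a q i) x) :=
  (((push (code := ocode) (s := 1) (t := 2) (b := false) rfl _ x).trans
    (push (code := ocode) (s := 2) (t := 3) (b := false) rfl _ x)).trans
    (push (code := ocode) (s := 3) (t := 4) (b := true) rfl _ x)).mono (Nat.zero_le _) le_rfl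

theorem round {L : ℕ → List Bool → ℕ} (hF : Flag0 L Q) (a : ℕ) (q : List Bool) {i : ℕ}
    (hi : i < L a q) (x : List Bool) :
    Go Q 0 12 (Conv.cf ocode 1 (ps a q i) x) (Conv.cf ocode 1 (ps a q (i + 1)) x) := by
  have hQ : Q (true :: false :: false :: ps a q i) = false :=
    (hF i a q).trans (decide_eq_false (by omega))
  exact ((((((ask a q i x).trans
    (no (code := ocode) (s := 4) (t := 5) (t' := 9) rfl _ x hQ)).trans
    (pop (code := ocode) (s := 5) (t := 6) rfl _ _ x)).trans
    (pop (code := ocode) (s := 6) (t := 7) rfl _ _ x)).trans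
    (pop (code := ocode) (s := 7) (t := 8) rfl _ _ x)).trans
    (push (code := ocode) (s := 8) (t := 1) (b := true) rfl _ x)).mono (Nat.zero_le _)
      (by norm_num)

theorem loop {L : ℕ → List Bool → ℕ} (hF : Flag0 L Q) (a : ℕ) (q : List Bool) (x : List Bool) :
    ∀ i ≤ L a q, Go Q 0 (12 * i) (Conv.cf ocode 1 (ps a q 0) x)
      (Conv.cf ocode 1 (ps a q i) x) := by
  intro i
  induction i with
  | zero => exact fun _ => Go.refl _
  | succ i ih => exact fun hi => (ih (by omega)).trans (round hF a q (by omega) x)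

theorem run {L : ℕ → List Bool → ℕ} (hF : Flag0 L Q) (a : ℕ) (q : List Bool) (x : List Bool) :
    Go Q 0 (12 * L a q + 14) (Conv.cf ocode 0 (List.replicate a true ++ false :: q) x)
      (Conv.cf ocode 14 (false :: vn L a q) x) := by
  have hQ : Q (true :: false :: false :: ps a q (L a q)) = true :=
    (hF (L a q) a q).trans (decide_eq_true le_rfl)
  exact (((((((((push (code := ocode) (s := 0) (t := 1) (b := false) rfl _ x).trans
    (loop hF a q x (L a q) le_rfl)).trans (ask a q (L a q) x)).trans
    (yes (code := ocode) (s := 4) (t := 5) (t' := 9) rfl _ x hQ)).trans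
    (pop (code := ocode) (s := 9) (t := 10) rfl _ _ x)).trans
    (pop (code := ocode) (s := 10) (t := 11) rfl _ _ x)).trans
    (pop (code := ocode) (s := 11) (t := 12) rfl _ _ x)).trans
    (push (code := ocode) (s := 12) (t := 13) (b := true) rfl _ x)).trans
    (push (code := ocode) (s := 13) (t := 14) (b := false) rfl _ x)).mono
      (Nat.zero_le _) (by omega)

theorem specOUT : SpecOUT := by
  intro a
  refine ⟨pr (mk2 ocode) a, fun L Q hF q T hT => ?_⟩
  obtain ⟨t, -, h2, h3⟩ := run hF a q []
  refine ESY.Alg2.outputs_mono (t := t + a + 1) (by omega) ?_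
  rw [ESY.Alg2.outputs_pr]
  unfold Outputs
  rw [start_mk2, h3]
  exact ⟨rfl, rfl⟩

end ESY.AC.OUTM
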