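import Pool.Agent.Lib.MP_b9add9_lc.AC.Spec

/-!
# MP_b9add9_lc, row AC, module RDU: the pair is `NP`-hard and `NP = UP`
-/

set_option linter.unusedSectionVars false
set_option autoImplicit false

namespace ESY.AC

open ESY ESY.Conv ESY.Few Set
open ESY.Alg2 (tp tp_inj tp_length tp_append app_tp ln)
open ESY.Alg3 (Ls mem_Ls Qy rs vn AllOnes Flag0 Flag1 Flag2 hs fc)
open ESY.Alg4 (O0 O1 kp Jn)
open ESY.Alg6 (AE bk ex lw qv ql wt Gp Cn St atl UV uv_mk)

variable [AE]

namespace RDUM

variable {X A : Oracle}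

theorem pick_pair (a : ℕ) (b : Bool) : pick (Nat.pair a a) b = a := by
  unfold pick
  rw [Nat.unpair_pair]
  exact ite_self a

theorem lp_pair (a : ℕ) (q : List Bool) : lp (Nat.pair a a) q = ln a q + ln a q := by
  unfold lp
  rw [pick_pair, pick_pair]

theorem np_length (a : ℕ) (q : List Bool) : (np (Nat.pair a a) q).length =
    1 + ((ln a q + ln a q) + (1 + (Nat.pair a a + (1 + q.length)))) := by
  unfold np vn
  rw [List.length_cons, List.length_append, List.length_replicate, List.length_cons,
    List.length_append, List.length_replicate, List.length_cons, lp_pair]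
  ring

theorem pb_Mn {g : ℕ → ℕ} (hg : PB g) : PB fun n => Mn (g n) :=
  pb_mul (pb_const 2) (Alg6.pb_Mn hg)

theorem pb_ln (a : ℕ) : PB fun n => poly (nu a.div2).2 n + 1 + (a.div2 + 1 + n) :=
  pb_add (pb_add (pb_poly _) (pb_const 1)) (pb_add (pb_const _) pb_id)

theorem bound_all (a : ℕ) : ∃ c, ∀ q : List Bool, 4 * Nn (np (Nat.pair a a) q) +
    40 * (lp (Nat.pair a a) q + Nn (np (Nat.pair a a) q) + Jn (np (Nat.pair a a) q) + 2) ^ 2 +
      Nat.pair a a + 1 ≤ poly c q.length := by
  have h2 := pb_ln a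
  have h1 : PB fun n => 8 * Mn (1 + (((poly (nu a.div2).2 n + 1 + (a.div2 + 1 + n)) +
      (poly (nu a.div2).2 n + 1 + (a.div2 + 1 + n))) + (1 + (Nat.pair a a + (1 + n))))) :=
    pb_mul (pb_const 8) (pb_Mn (pb_add (pb_const 1) (pb_add (pb_add h2 h2)
      (pb_add (pb_const 1) (pb_add (pb_const _) (pb_add (pb_const 1) pb_id))))))
  obtain ⟨c, hc⟩ := pb_add (pb_add (pb_add (pb_mul (pb_const 4) h1) (pb_mul (pb_const 40)
    (pb_pow (pb_add (pb_add (pb_add (pb_add h2 h2) h1) (pb_const 1)) (pb_const 2)) 2)))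
    (pb_const (Nat.pair a a))) (pb_const 1)
  refine ⟨c, fun q => ?_⟩
  have h3 := hc q.length
  simp only at h3
  rw [← Alg6.ln_eq, ← np_length, ← lp_pair] at h3
  exact h3

theorem hs_eq (hlen : ∀ v y : List Bool, AllOnes Jn A v y → y.length = Nn v) {S : Oracle}
    (hS : Separator (UV A true) (UV A false) S)
    {v y : List Bool} (ho : AllOnes Jn A v y) : ∀ i ≤ Nn v,
    ∃ l, y = l ++ hs S v i ∧ (hs S v i).length = i := by
  intro i
  induction i with
  | zero => exact fun _ => ⟨y, by simp [hs], rfl⟩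
  | succ i ih =>
    intro hi
    obtain ⟨l, h1, h2⟩ := ih (by omega)
    have h3 := hlen v y ho
    have h4 := congrArg List.length h1
    rw [List.length_append] at h4
    have hl : l ≠ [] := by
      rintro rfl
      rw [List.length_nil] at h4
      omega
    obtain ⟨l', b, rfl⟩ : ∃ l' b, l = l' ++ [b] :=
      ⟨l.dropLast, l.getLast hl, (List.dropLast_append_getLast hl).symm⟩
    rw [List.append_assoc] at h1
    have h5 : y = l' ++ b :: hs S v i := h1
    have h6 : tp (hs S v i) (false :: v) ∈ UV A b := uv_mk (l := l') (by rw [← h5]; exact ho)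
    have h7 : S (tp (hs S v i) (false :: v)) = b := by
      cases b
      · exact hS.2 _ h6
      · exact hS.1 _ h6
    refine ⟨l', ?_, ?_⟩
    · rw [hs, h7]
      exact h5
    · rw [hs, List.length_cons, h2]

end RDUM

open RDUM in
theorem specRDU (_hLOC : SpecLOC) (hRWW : SpecRWW) : SpecRDU := by
  intro X A hA L a hL
  obtain ⟨hrow, hfull, huniq, hF0, hF1, hF2, -⟩ := hRWW X A hA
  obtain ⟨c, hc⟩ := bound_all a
  set e := Nat.pair a a with he
  have hlen : ∀ v y : List Bool, AllOnes Jn A v y → y.length = Nn v := by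
    intro v y h
    have h1 := (hrow v y h).1
    rw [Sn, Finset.mem_filter, mem_Ls] at h1
    exact h1.1
  -- the language in terms of the rows
  have hkey : ∀ q, q ∈ L ↔ ∃ y, AllOnes Jn A (np e q) y := by
    intro q
    rw [hL q]
    constructor
    · intro h
      obtain ⟨b, hb⟩ := hA.compl e q true (by rw [he, pick_pair]; exact h)
      obtain ⟨y, hy, -⟩ := hfull b _ hb
      exact ⟨y, hy⟩
    · rintro ⟨y, hy⟩
      obtain ⟨-, b, -, hb⟩ := hrow _ y hy
      have := hA.sound e q b hb
      rwa [he, pick_pair] at this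
  have hb : ∀ q : List Bool, ∃ t, poly c q.length = t + e + 1 ∧
      4 * Nn (np e q) + 40 * (lp e q + Nn (np e q) + Jn (np e q) + 2) ^ 2 ≤ t := by
    intro q
    have h0 := hc q
    exact ⟨poly c q.length - (e + 1), by omega, by omega⟩
  constructor
  · have hO : ∀ s, A (List.replicate ((0 : Fin 3).val) false ++ s) = A s := fun s => rfl
    have hsound : ∀ q w : List Bool, AcceptsIn A (pr (fc true false 0) e) q w (poly c q.length) →
        AllOnes Jn A (np e q) w.reverse := by
      intro q w h
      obtain ⟨t, ht, -⟩ := hb q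
      rw [ht, accepts_pr] at h
      exact (Alg3.specPM lp Jn 0 A A hO hF0 hF2 e q w).1 t h
    refine ⟨pr (fc true false 0) e, c, fun q => ?_, fun q => ?_⟩
    · rw [hkey q]
      constructor
      · rintro ⟨y, hy⟩
        obtain ⟨t, ht, h1⟩ := hb q
        have h2 := hlen _ y hy
        refine ⟨y.reverse, by rw [List.length_reverse]; omega, ?_⟩
        rw [ht, accepts_pr]
        refine (Alg3.specPM lp Jn 0 A A hO hF0 hF2 e q y.reverse).2
          (by rw [List.reverse_reverse]; exact hy) t ?_
        have h3 : (lp e q + Jn (vn lp e q) + 2) ^ 2 ≤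
            (lp e q + Nn (np e q) + Jn (np e q) + 2) ^ 2 :=
          Nat.pow_le_pow_left (by unfold np; omega) 2
        rw [List.length_reverse]
        omega
      · rintro ⟨w, -, h⟩
        exact ⟨_, hsound q w h⟩
    · have h1 : {w : List Bool | w.length ≤ poly c q.length ∧
          AcceptsIn A (pr (fc true false 0) e) q w (poly c q.length)}.Subsingleton := by
        rintro w ⟨-, h⟩ w' ⟨-, h'⟩
        exact List.reverse_injective (huniq _ _ _ (hsound q w h) (hsound q w' h'))
      exact_mod_cast Set.encard_le_one_iff_subsingleton.2 h1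
  · intro S hS
    refine ⟨pr (fc true true 1) e, c, fun q => ?_⟩
    obtain ⟨t, ht, h0⟩ := hb q
    rw [ht, accepts_pr, hkey q]
    rw [Alg3.specRED lp Nn Jn 1 (join A S) A S (fun s => rfl) (fun s => rfl) hF0 hF1 hF2 e q t (by
      change 40 * (lp e q + Nn (np e q) + Jn (np e q) + 2) ^ 2 ≤ t
      omega)]
    constructor
    · rintro ⟨y, hy⟩
      obtain ⟨l, h1, h2⟩ := hs_eq hlen hS hy (Nn (np e q)) le_rfl
      have h3 := hlen _ y hy
      have h4 := congrArg List.length h1
      rw [List.length_append] at h4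
      have hl : l = [] := List.length_eq_zero_iff.1 (by omega)
      rw [hl, List.nil_append] at h1
      have h5 : AllOnes Jn A (np e q) (hs S (np e q) (Nn (np e q))) := by
        rw [← h1]
        exact hy
      exact h5
    · intro h
      exact ⟨_, h⟩

end ESY.AC
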