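import Pool.Agent.Lib.MP_b9add9_lc.AC.Spec

/-!
# MP_b9add9_lc, row AC, module RWW: rows of a world, flags
-/

set_option linter.unusedSectionVars false
set_option autoImplicit false

namespace ESY.AC.RWWM

open ESY ESY.Conv ESY.Few ESY.AC
open ESY.Alg2 (tp ln tp_inj)
open ESY.Alg3 (Ls Qy rs vn AllOnes Flag0 Flag1 Flag2 rs_inj' mem_Ls)
open ESY.Alg4 (O0 O1 mem_O0 mem_O1 kp Jn)
open ESY.Alg6 (AE bk ex lw qv ql wt Gp Cn St atl)

variable [AE]

variable {X A : Oracle}

theorem mem_Sn {n : ℕ} {y : List Bool} :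
    y ∈ Sn n ↔ y.length = 8 * Mn n ∧ true ∈ y ∧ false ∈ y := by
  rw [Sn, Finset.mem_filter, mem_Ls]

theorem mem_Sb {b : Bool} {n : ℕ} {y : List Bool} :
    y ∈ Sb b n ↔ y ∈ Sn n ∧ y.getLast? = some b := by
  rw [Sb, Finset.mem_filter]

theorem not_rowBit {s : List Bool} (h : ∀ t, s ≠ true :: true :: true :: t) : ¬ RowBit s := by
  rintro ⟨v, y, -, j, -, e⟩
  exact h _ e

theorem allOnes_Sn (hA : IsWorld X A) {v y : List Bool} (h : AllOnes Jn A v y) :
    y ∈ Sn v.length := by
  by_contra hne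
  have h1 : ¬ RowBit (rs Jn v y 0) := by
    rintro ⟨v', y', hy', j', -, e⟩
    obtain ⟨rfl, rfl, -⟩ := rs_inj' e
    exact hne hy'
  have h2 := h 0 (Nat.zero_le _)
  rw [hA.base _ h1] at h2
  have h3 : Bs X (rs Jn v y 0) = false := rfl
  rw [h3] at h2
  cases h2

theorem last_of_mem (hA : IsWorld X A) {v y : List Bool} (h : AllOnes Jn A v y) :
    ∃ b, y.getLast? = some b := by
  obtain ⟨-, h1, -⟩ := mem_Sn.1 (allOnes_Sn hA h)
  have h2 : y ≠ [] := List.ne_nil_of_mem h1
  exact ⟨y.getLast h2, List.getLast?_eq_some_getLast h2⟩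

theorem allOnes_iff (hA : IsWorld X A) {v y : List Bool} {b : Bool} :
    y ∈ (cfg A b v).1 ∩ (cfg A b v).2 ↔ AllOnes Jn A v y ∧ y.getLast? = some b := by
  unfold cfg
  rw [Finset.mem_inter, Finset.mem_filter, Finset.mem_filter]
  constructor
  · rintro ⟨⟨h, h0⟩, -, h1⟩
    refine ⟨fun j hj => ?_, (mem_Sb.1 h).2⟩
    have hj' : j ≤ 1 := hj
    rcases Nat.le_one_iff_eq_zero_or_eq_one.1 hj' with rfl | rfl
    · exact h0
    · exact h1
  · rintro ⟨h, hb⟩
    have h2 := mem_Sb.2 ⟨allOnes_Sn hA h, hb⟩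
    exact ⟨⟨h2, h 0 (Nat.zero_le _)⟩, h2, h 1 le_rfl⟩

theorem not_emp (hA : IsWorld X A) {v y : List Bool} {b : Bool} (h : AllOnes Jn A v y)
    (hb : y.getLast? = some b) : ¬ EmpB A b v := by
  intro he
  unfold EmpB at he
  have h1 := (allOnes_iff hA).2 ⟨h, hb⟩
  rw [Finset.disjoint_iff_inter_eq_empty.1 (mem_O0.1 he).2] at h1
  exact absurd h1 (Finset.notMem_empty y)

theorem full_of (hA : IsWorld X A) {v y : List Bool} {b : Bool} (h : AllOnes Jn A v y)
    (hb : y.getLast? = some b) : FullB A b v := by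
  rcases hA.uniq v with h1 | ⟨b', h1, h2⟩
  · exact absurd (h1 b) (not_emp hA h hb)
  · by_cases hbb : b = b'
    · rw [hbb]
      exact h1
    · have : b = !b' := by
        cases b <;> cases b' <;> simp_all
      rw [← this] at h2
      exact absurd h2 (not_emp hA h hb)

theorem exists_row (hA : IsWorld X A) {v : List Bool} {b : Bool} (h : FullB A b v) :
    ∃ y, AllOnes Jn A v y ∧ y.getLast? = some b := by
  unfold FullB at h
  obtain ⟨y, hy⟩ := Finset.card_eq_one.1 (mem_O1.1 h).2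
  exact ⟨y, (allOnes_iff hA).1 (by rw [hy]; exact Finset.mem_singleton_self y)⟩

theorem not_emp_of_full {v : List Bool} {b : Bool} (h : FullB A b v) : ¬ EmpB A b v := by
  intro he
  unfold FullB at h
  unfold EmpB at he
  have h1 := (mem_O1.1 h).2
  rw [Finset.disjoint_iff_inter_eq_empty.1 (mem_O0.1 he).2, Finset.card_empty] at h1
  cases h1

theorem full_same (hA : IsWorld X A) {v : List Bool} {b b' : Bool} (h : FullB A b v)
    (h' : FullB A b' v) : b = b' := by
  rcases hA.uniq v with h1 | ⟨c, _, h2⟩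
  · exact absurd (h1 b) (not_emp_of_full h)
  · have key : ∀ d, FullB A d v → d = c := by
      intro d hd
      by_contra hne
      have : d = !c := by
        cases d <;> cases c <;> simp_all
      rw [this] at hd
      exact not_emp_of_full hd h2
    rw [key b h, key b' h']

theorem allOnes_uniq (hA : IsWorld X A) {v y y' : List Bool} (h : AllOnes Jn A v y)
    (h' : AllOnes Jn A v y') : y = y' := by
  obtain ⟨b, hb⟩ := last_of_mem hA h
  obtain ⟨b', hb'⟩ := last_of_mem hA h'
  have h0 := full_of hA h hb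
  have hbb := full_same hA h0 (full_of hA h' hb')
  rw [← hbb] at hb'
  unfold FullB at h0
  obtain ⟨z, hz⟩ := Finset.card_eq_one.1 (mem_O1.1 h0).2
  have h1 := (allOnes_iff hA).2 ⟨h, hb⟩
  have h2 := (allOnes_iff hA).2 ⟨h', hb'⟩
  rw [hz, Finset.mem_singleton] at h1 h2
  rw [h1, h2]

/-! ### flags -/

theorem flag0 (hA : IsWorld X A) : Flag0 lp A := by
  classical
  intro i a q
  rw [hA.base _ (not_rowBit fun t h => absurd (List.cons.inj (List.cons.inj h).2).1 (by decide))]
  change flg (false :: false :: _) = _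
  simp only [flg]
  refine decide_eq_decide.2 ⟨?_, fun h => ⟨i, a, q, rfl, h⟩⟩
  rintro ⟨i', a', q', e, h⟩
  obtain ⟨rfl, e'⟩ := Alg2.rep_inj e
  obtain ⟨rfl, rfl⟩ := Alg2.rep_inj e'
  exact h

theorem flag1 (hA : IsWorld X A) : Flag1 Nn A := by
  classical
  intro y v
  rw [hA.base _ (not_rowBit fun t h =>
    absurd (List.cons.inj (List.cons.inj (List.cons.inj h).2).2).1 (by decide))]
  change flg (true :: false :: _) = _
  simp only [flg]
  refine decide_eq_decide.2 ⟨?_, fun h => ⟨y, v, rfl, h⟩⟩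
  rintro ⟨y', v', e, h⟩
  obtain ⟨rfl, rfl⟩ := tp_inj e
  exact h

theorem flag2 (hA : IsWorld X A) : Flag2 Jn A := by
  classical
  intro i e
  rw [hA.base _ (not_rowBit fun t h => absurd (List.cons.inj (List.cons.inj h).2).1 (by decide))]
  change flg (false :: true :: _) = true ↔ _
  simp only [flg, decide_eq_true_eq]
  constructor
  · rintro ⟨α, y, v, h, hJ⟩
    obtain ⟨h1, h2⟩ := tp_inj h
    rw [← h1, List.length_replicate] at hJ
    exact ⟨y, v, h2, hJ⟩
  · rintro ⟨y, v, rfl, hJ⟩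
    exact ⟨_, y, v, rfl, by rwa [List.length_replicate]⟩

theorem world_join (hA : IsWorld X A) : A = join X fun s => A (true :: s) := by
  funext s
  match s with
  | [] => rw [hA.base _ (not_rowBit fun t h => by simp at h)]; rfl
  | false :: s =>
    rw [hA.base _ (not_rowBit fun t h => absurd (List.cons.inj h).1 (by decide))]
    rfl
  | true :: s => rfl

/-- **Module RWW**. -/
theorem specRWW (_ : SpecLOC) : SpecRWW := by
  intro X A hA
  refine ⟨fun v y h => ⟨allOnes_Sn hA h, ?_⟩, fun b v h => exists_row hA h,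
    fun v y y' h h' => allOnes_uniq hA h h', flag0 hA, flag1 hA, flag2 hA, world_join hA⟩
  obtain ⟨b, hb⟩ := last_of_mem hA h
  exact ⟨b, hb, full_of hA h hb⟩

end ESY.AC.RWWM
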