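import Pool.Agent.Lib.MP_b9add9_lc.AC.Spec

/-!
# MP_b9add9_lc, row AC, module SWI: switching a block
-/

set_option linter.unusedSectionVars false
set_option autoImplicit false

namespace ESY.AC.SWIM

open ESY ESY.Conv ESY.Few ESY.AC Set
open ESY.Alg2 (tp ln)
open ESY.Alg3 (Ls Qy rs vn)
open ESY.Alg4 (O0 O1 mem_O0 mem_O1 kp Jn)
open ESY.Alg6 (AE bk ex lw qv ql wt Gp Cn St atl)

variable [AE]

open Classical in
/-- the new full half of a true block -/
noncomputable def side (A₂ A : Oracle) (v : List Bool) : Bool :=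
  if TS A₂ v ∧ ∃ a q, v = np a q ∧ St A (pick a (sel A₂ v)) q then sel A₂ v else sel A v

/-- the half gets a full row -/
def tau (A₂ : Oracle) (v₀ : List Bool) (A : Oracle) (b : Bool) (v : List Bool) : Prop :=
  (v = v₀ ∧ b = true) ∨ (TS A v ∧ b = side A₂ A v)

open Classical in
/-- the new configuration -/
noncomputable def cn (c0 c1 f0 f1 : Bool → List Bool → Cfg) (A₂ : Oracle) (v₀ : List Bool)
    (A : Oracle) (b : Bool) (v : List Bool) : Cfg :=
  if tau A₂ v₀ A b v then (if TS A₂ v ∧ b = sel A₂ v then c1 b v else f1 b v)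
  else (if TS A₂ v ∧ b = sel A₂ v then f0 b v else c0 b v)

/-- **SWI.** -/
theorem specSWI (hQVS : SpecQVS) (hLOC : SpecLOC) (hCLO : SpecCLO) (hBLD : SpecBLD) :
    SpecSWI := by
  classical
  intro c0 c1 hcn X A₂ hA n₀ hcan Q₀ hD v₀ hv₀ hnm
  obtain ⟨hnp, -, hTSc, hStc, hcfgc, hTSst, hEF, hlvn, -, -⟩ := hLOC
  obtain ⟨Q, hQ1, hQ2, hQ3⟩ := hCLO c0 c1 hcn A₂ n₀ Q₀ hD
  have hW : ∀ v : List Bool, n₀ ≤ v.length → ∑ p ∈ atl Q (lvl v), wt p ≤ 2 ^ Mn v.length :=
    fun v hv => (Finset.sum_le_sum_of_subset (Finset.filter_subset _ _)).trans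
      (hQ3.trans (hD _ hv))
  have hf1 : ∀ (b : Bool) (v : List Bool), ∃ f ∈ O1 (Sb b v.length), n₀ ≤ v.length →
      ∀ p ∈ atl Q (lvl v), ct p v f = ct p v (c0 b v) := by
    intro b v
    by_cases hv : n₀ ≤ v.length
    · obtain ⟨f, h1, h2⟩ := hcn.amb0 b v _ (hW v hv)
      exact ⟨f, h1, fun _ => h2⟩
    · exact ⟨c1 b v, hcn.m1 b v, fun h => absurd h hv⟩
  have hf0 : ∀ (b : Bool) (v : List Bool), ∃ f ∈ O0 (Sb b v.length),
      (∃ f ∈ O0 (Sb b v.length), ∀ p ∈ atl Q (lvl v), ct p v f = ct p v (c1 b v)) →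
      ∀ p ∈ atl Q (lvl v), ct p v f = ct p v (c1 b v) := by
    intro b v
    by_cases hv : ∃ f ∈ O0 (Sb b v.length), ∀ p ∈ atl Q (lvl v), ct p v f = ct p v (c1 b v)
    · obtain ⟨f, h1, h2⟩ := hv
      exact ⟨f, h1, fun _ => h2⟩
    · exact ⟨c0 b v, hcn.m0 b v, fun h => absurd h hv⟩
  choose f1 h11 h12 using hf1
  choose f0 h01 h02 using hf0
  have hsidec : ∀ A A' v, (∀ s : List Bool, s.length < lvl v → A s = A' s) →
      side A₂ A v = side A₂ A' v := by
    intro A A' v h
    have e1 : (∃ a q, v = np a q ∧ St A (pick a (sel A₂ v)) q) ↔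
        ∃ a q, v = np a q ∧ St A' (pick a (sel A₂ v)) q := by
      refine exists_congr fun a => exists_congr fun q => and_congr_right fun e => ?_
      exact hStc A A' a q _ (by rw [← e]; exact h)
    unfold side
    rw [(hTSc A A' v h).2]
    exact if_congr (and_congr_right fun _ => e1) rfl rfl
  have hτc : ∀ A A' b v, (∀ s : List Bool, s.length < lvl v → A s = A' s) →
      (tau A₂ v₀ A b v ↔ tau A₂ v₀ A' b v) := by
    intro A A' b v h
    unfold tau
    rw [hsidec A A' v h, (hTSc A A' v h).1]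
  have hc1 : ∀ A b v, tau A₂ v₀ A b v → cn c0 c1 f0 f1 A₂ v₀ A b v ∈ O1 (Sb b v.length) := by
    intro A b v h
    unfold cn
    rw [if_pos h]
    split_ifs
    · exact hcn.m1 b v
    · exact h11 b v
  have hc0 : ∀ A b v, ¬ tau A₂ v₀ A b v → cn c0 c1 f0 f1 A₂ v₀ A b v ∈ O0 (Sb b v.length) := by
    intro A b v h
    unfold cn
    rw [if_neg h]
    split_ifs
    · exact h01 b v
    · exact hcn.m0 b v
  obtain ⟨A, h1, hlow, h2⟩ := hBLD A₂ n₀ (cn c0 c1 f0 f1 A₂ v₀) (fun A b v => by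
    by_cases h : tau A₂ v₀ A b v
    · exact (mem_O1.1 (hc1 A b v h)).1
    · exact (mem_O0.1 (hc0 A b v h)).1) (fun A A' b v h => by
    have ht := hτc A A' b v h
    unfold cn
    by_cases h3 : tau A₂ v₀ A b v
    · rw [if_pos h3, if_pos (ht.1 h3)]
    · rw [if_neg h3, if_neg fun h' => h3 (ht.2 h')])
  have hrb : ∀ s, ¬ RowBit s → ¬ RowBitF n₀ s := by
    rintro s hs ⟨v, -, y, hy, j, hj, e⟩
    exact hs ⟨v, y, hy, j, hj, e⟩
  have hE : ∀ v : List Bool, v.length < n₀ → ∀ s : List Bool, s.length = lvl v → A₂ s = A s :=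
    fun v hv s hs => (hlow s (lt_of_le_of_lt (le_of_eq hs) (hlvn _ _ hv))).symm
  have hL : ∀ v : List Bool, v.length < n₀ → ∀ s : List Bool, s.length < lvl v → A₂ s = A s :=
    fun v hv s hs => (hlow s (lt_trans hs (hlvn _ _ hv))).symm
  have hfull : ∀ (b : Bool) (v : List Bool), n₀ ≤ v.length → tau A₂ v₀ A b v → FullB A b v := by
    intro b v hv h
    unfold FullB
    rw [h2 b v hv]
    exact hc1 A b v h
  have hemp : ∀ (b : Bool) (v : List Bool), n₀ ≤ v.length → ¬ tau A₂ v₀ A b v → EmpB A b v := by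
    intro b v hv h
    unfold EmpB
    rw [h2 b v hv]
    exact hc0 A b v h
  have hFc : ∀ (b : Bool) (v : List Bool), v.length < n₀ → (FullB A₂ b v ↔ FullB A b v) := by
    intro b v hv
    unfold FullB
    rw [hcfgc A₂ A b v (hE v hv)]
  have hEc : ∀ (b : Bool) (v : List Bool), v.length < n₀ → (EmpB A₂ b v ↔ EmpB A b v) := by
    intro b v hv
    unfold EmpB
    rw [hcfgc A₂ A b v (hE v hv)]
  -- the values of the queries do not change
  have hval : ∀ m, ∀ p ∈ Q, ql p = m → qv p A = qv p A₂ := by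
    intro m
    induction m using Nat.strong_induction_on with
    | _ m ih =>
      intro p hp hpm
      refine hQVS p A A₂ (fun s _ hs => h1 s (hrb s hs)) fun b v hv => ?_
      by_cases hn : n₀ ≤ v.length
      swap
      · rw [hcfgc A A₂ b v fun s hs => (hE v (not_le.1 hn) s hs).symm]
      have hpa : p ∈ atl Q (lvl v) := Finset.mem_filter.2 ⟨hp, hv⟩
      rw [h2 b v hn, hcan b v hn]
      unfold cn cc
      by_cases ht : tau A₂ v₀ A b v
      · rw [if_pos ht]
        by_cases ht2 : TS A₂ v ∧ b = sel A₂ v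
        · rw [if_pos ht2, if_pos ht2]
        · rw [if_neg ht2, if_neg ht2]
          exact h12 b v hn p hpa
      · rw [if_neg ht]
        by_cases ht2 : TS A₂ v ∧ b = sel A₂ v
        · rw [if_pos ht2, if_pos ht2]
          refine h02 b v ?_ p hpa
          by_contra hna
          obtain ⟨ht3, hb⟩ := ht2
          have ht3' := ht3
          obtain ⟨a, q, b', hvn, -⟩ := ht3'
          subst hvn
          rw [hb] at hna
          have hst : St A (pick a (sel A₂ (np a q))) q :=
            hQ2 _ hn a q rfl ht3 hna A fun p' hp' hlt => ih (ql p') (by omega) p' hp' rfl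
          refine ht (Or.inr ⟨⟨a, q, _, rfl, hst⟩, ?_⟩)
          unfold side
          rw [if_pos ⟨ht3, a, q, rfl, hst⟩]
          exact hb
        · rw [if_neg ht2, if_neg ht2]
  have hTSn : ∀ v, (∀ a q, v ≠ np a q) → ¬ TS A v := by
    rintro v hv ⟨a, q, b, e, -⟩
    exact hv a q e
  have hside : ∀ a q, TS A (np a q) → St A (pick a (side A₂ A (np a q))) q := by
    intro a q h
    unfold side
    split_ifs with h3
    · obtain ⟨-, a', q', e, h4⟩ := h3
      obtain ⟨rfl, rfl⟩ := hnp _ _ _ _ e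
      exact h4
    · exact hTSst A a q h
  refine ⟨A, ⟨fun s hs => ?_, fun v => ?_, fun a q b h => ?_, fun a q b h => ?_⟩, hlow,
    fun p hp => hval _ p (hQ1 hp) rfl, hfull true v₀ hv₀ (Or.inl ⟨rfl, rfl⟩),
    fun v hv hvn hne b => hemp b v hv ?_⟩
  · rw [h1 s (hrb s hs)]
    exact hA.base s hs
  · by_cases hv : n₀ ≤ v.length
    · by_cases hvv : v = v₀
      · right
        subst hvv
        refine ⟨true, hfull true v hv (Or.inl ⟨rfl, rfl⟩), hemp _ v hv ?_⟩
        rintro (⟨-, h⟩ | ⟨h, -⟩)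
        · exact absurd h (by decide)
        · exact hTSn v hnm h
      · by_cases ht : TS A v
        · right
          refine ⟨side A₂ A v, hfull _ v hv (Or.inr ⟨ht, rfl⟩), hemp _ v hv ?_⟩
          rintro (⟨h, -⟩ | ⟨-, h⟩)
          · exact hvv h
          · revert h
            cases side A₂ A v <;> decide
        · left
          intro b
          refine hemp b v hv ?_
          rintro (⟨h, -⟩ | ⟨h, -⟩)
          · exact hvv h
          · exact ht h
    · have hv' := not_le.1 hv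
      rcases hA.uniq v with h | ⟨b, h3, h4⟩
      · exact Or.inl fun b => (hEc b v hv').1 (h b)
      · exact Or.inr ⟨b, (hFc b v hv').1 h3, (hEc _ v hv').1 h4⟩
  · by_cases hv : n₀ ≤ (np a q).length
    · have ht : tau A₂ v₀ A b (np a q) := by
        by_contra h3
        exact hEF A b (np a q) (hemp b _ hv h3) h
      rcases ht with ⟨h3, -⟩ | ⟨h3, h4⟩
      · exact absurd h3.symm (hnm a q)
      · rw [h4]
        exact hside a q h3
    · have hv' := not_le.1 hv
      exact (hStc A₂ A a q b (hL _ hv')).1 (hA.sound a q b ((hFc b _ hv').2 h))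
  · by_cases hv : n₀ ≤ (np a q).length
    · exact ⟨_, hfull _ _ hv (Or.inr ⟨⟨a, q, b, rfl, h⟩, rfl⟩)⟩
    · have hv' := not_le.1 hv
      obtain ⟨b', h3⟩ := hA.compl a q b ((hStc A₂ A a q b (hL _ hv')).2 h)
      exact ⟨b', (hFc b' _ hv').1 h3⟩
  · rintro (⟨h, -⟩ | ⟨h, -⟩)
    · exact hne h
    · exact hTSn v hvn h

end ESY.AC.SWIM
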