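import Pool.Agent.Lib.MP_b9add9_lc.AC.Spec

/-!
# MP_b9add9_lc, row AC: module UVM

The pair and the test language are in `NP`; the pair is disjoint and its members are nonempty.
-/

set_option linter.unusedSectionVars false
set_option autoImplicit false

namespace ESY.AC.UVMM

open ESY ESY.Conv ESY.Few ESY.AC Set
open ESY.Alg2 (tp tp_inj tp_length tp_append app_tp ln hd_np)
open ESY.Alg3 (Ls Qy rs vn AllOnes Flag0 Flag1 Flag2 fc mem_Ls)
open ESY.Alg4 (O0 O1 kp Jn)
open ESY.Alg6 (AE bk ex lw qv ql wt Gp Cn St atl)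

variable [AE]

theorem mem_Sn {n : ℕ} {y : List Bool} :
    y ∈ Sn n ↔ y.length = 8 * Mn n ∧ true ∈ y ∧ false ∈ y := by
  rw [Sn, Finset.mem_filter, mem_Ls]

theorem pb_Mn {g : ℕ → ℕ} (hg : PB g) : PB fun n => Mn (g n) :=
  pb_mul (pb_const 2) (pb_mul (pb_mul (pb_add hg (pb_const 1)) (pb_add hg (pb_const 3)))
    (pb_mul (pb_add hg (pb_const 1)) (pb_add (Alg6.pb_bk (pb_mul (pb_const 2) hg)) (pb_const 1))))

theorem pb_tot {g : ℕ → ℕ} (hg : PB g) : PB fun n => 4 * (8 * Mn (g n)) +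
    40 * (8 * Mn (g n) + 2 * g n + 2 + 2) ^ 2 + 2 :=
  pb_add (pb_add (pb_mul (pb_const 4) (pb_mul (pb_const 8) (pb_Mn hg))) (pb_mul (pb_const 40)
    (pb_pow (pb_add (pb_add (pb_add (pb_mul (pb_const 8) (pb_Mn hg)) (pb_mul (pb_const 2) hg))
    (pb_const 2)) (pb_const 2)) 2))) (pb_const 2)

section world
variable {X A : Oracle} (hLOC : SpecLOC) (hRWW : SpecRWW) (hA : IsWorld X A)
include hLOC hRWW hA

theorem Nn_mono {v : List Bool} {n : ℕ} (h : v.length ≤ n) : Nn v ≤ 8 * Mn n :=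
  Nat.mul_le_mul_left 8 (hLOC.2.2.2.2.2.2.2.2.2 _ _ h)

theorem allOnes_length {v y : List Bool} (h : AllOnes Jn A v y) : y.length = Nn v :=
  (mem_Sn.1 ((hRWW X A hA).1 v y h).1).1

theorem allOnes_mem {v y : List Bool} (h : AllOnes Jn A v y) (b : Bool) : b ∈ y := by
  obtain ⟨-, h1, h2⟩ := mem_Sn.1 ((hRWW X A hA).1 v y h).1
  cases b
  · exact h2
  · exact h1

theorem uv_disjoint : Disjoint (Alg6.UV A true) (Alg6.UV A false) := by
  refine Set.disjoint_left.2 ?_
  rintro x ⟨w, y, v, e, ho⟩ ⟨w', y', v', e', ho'⟩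
  obtain ⟨h, h1, h2⟩ := Alg6.uv_split e
  obtain ⟨h', h1', h2'⟩ := Alg6.uv_split e'
  obtain ⟨e1, e2⟩ := tp_inj (h2.symm.trans h2')
  subst e1 e2
  have e3 := (hRWW X A hA).2.2.1 _ _ _ ho ho'
  rw [h1, h1'] at e3
  have e4 := congrArg List.length e3
  rw [List.length_append, List.length_append, List.length_cons, List.length_cons] at e4
  have e5 := (List.append_inj e3 (by omega)).2
  exact absurd (List.cons.inj e5).1 (by decide)

theorem uv_np (b : Bool) : InNP A (Alg6.UV A b) := by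
  obtain ⟨c, hc⟩ := pb_tot pb_id
  refine ⟨pre b (pre true (fc false false 0)), c, fun x => ?_⟩
  have hO : ∀ s, A (List.replicate ((0 : Fin 3).val) false ++ s) = A s := fun s => rfl
  have h0 := hc x.length
  simp only at h0
  obtain ⟨t, ht⟩ : ∃ t, poly c x.length = t + 1 + 1 := ⟨poly c x.length - 2, by omega⟩
  constructor
  · rintro ⟨w, y, v, e, ho⟩
    obtain ⟨h, h1, h2⟩ := Alg6.uv_split e
    have hv : v.length ≤ x.length := by
      rw [h2, tp_length, List.length_cons]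
      omega
    have hNn := Nn_mono hLOC hRWW hA hv
    have hw : w.length ≤ Nn v := by
      rw [← allOnes_length hLOC hRWW hA ho, h1, List.length_append, List.length_reverse]
      omega
    refine ⟨w, by omega, ?_⟩
    rw [ht, accepts_pre, accepts_pre]
    refine (Alg3.specVM Jn 0 A A hO (hRWW X A hA).2.2.2.2.2.1 _ w).2 y v e ho t ?_
    have h3 : (Jn v + 2) ^ 2 ≤ (8 * Mn x.length + 2 * x.length + 2 + 2) ^ 2 :=
      Nat.pow_le_pow_left (by unfold Jn; omega) 2
    omega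
  · rintro ⟨w, -, h⟩
    rw [ht, accepts_pre, accepts_pre] at h
    obtain ⟨y, v, e, ho⟩ := (Alg3.specVM Jn 0 A A hO (hRWW X A hA).2.2.2.2.2.1 _ w).1 t h
    exact ⟨w, y, v, e, ho⟩

theorem lt_np : InNP A (LT A) := by
  obtain ⟨c, hc⟩ := pb_tot (pb_add pb_id (pb_const 1))
  refine ⟨pre false (pre false (fc false false 0)), c, fun x => ?_⟩
  have hO : ∀ s, A (List.replicate ((0 : Fin 3).val) false ++ s) = A s := fun s => rfl
  have h0 := hc x.length
  simp only at h0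
  obtain ⟨t, ht⟩ : ∃ t, poly c x.length = t + 1 + 1 := ⟨poly c x.length - 2, by omega⟩
  have hNn := Nn_mono hLOC hRWW hA (v := false :: x) (n := x.length + 1)
    (by rw [List.length_cons])
  constructor
  · rintro ⟨b, hx⟩
    obtain ⟨y, hy, -⟩ := (hRWW X A hA).2.1 b _ hx
    have hw := allOnes_length hLOC hRWW hA hy
    refine ⟨y.reverse, by rw [List.length_reverse]; omega, ?_⟩
    rw [ht, accepts_pre, accepts_pre]
    refine (Alg3.specVM Jn 0 A A hO (hRWW X A hA).2.2.2.2.2.1 _ y.reverse).2 y (false :: x)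
      ?_ hy t ?_
    · rw [app_tp, List.reverse_reverse]
    · have h3 : (Jn (false :: x) + 2) ^ 2 ≤
          (8 * Mn (x.length + 1) + 2 * (x.length + 1) + 2 + 2) ^ 2 :=
        Nat.pow_le_pow_left (by unfold Jn; omega) 2
      rw [List.length_reverse]
      omega
  · rintro ⟨w, -, h⟩
    rw [ht, accepts_pre, accepts_pre] at h
    obtain ⟨y, v, e, ho⟩ := (Alg3.specVM Jn 0 A A hO (hRWW X A hA).2.2.2.2.2.1 _ w).1 t h
    rw [app_tp] at e
    obtain ⟨-, e2⟩ := tp_inj e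
    rw [← e2] at ho
    obtain ⟨-, b, -, hb⟩ := (hRWW X A hA).1 _ _ ho
    exact ⟨b, hb⟩

theorem uv_nonempty (b : Bool) : (Alg6.UV A b).Nonempty := by
  obtain ⟨a, ha⟩ := Alg6.index A false (hd_np A true)
  have h1 : St A a [true] := (ha [true]).1 rfl
  have h2 : St A (pick (Nat.pair a a) true) [true] := by
    have : pick (Nat.pair a a) true = a := by simp [pick]
    rw [this]
    exact h1
  obtain ⟨b', hb'⟩ := hA.compl _ _ _ h2
  obtain ⟨y, hy, -⟩ := (hRWW X A hA).2.1 b' _ hb'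
  obtain ⟨l, h, e⟩ := List.append_of_mem (allOnes_mem hLOC hRWW hA hy b)
  exact ⟨_, Alg6.uv_mk (l := l) (h := h) (by rw [← e]; exact hy)⟩

end world

theorem specUVM (hLOC : SpecLOC) (hRWW : SpecRWW) : SpecUVM := fun _ _ hA =>
  ⟨fun b => ⟨uv_nonempty hLOC hRWW hA b, uv_np hLOC hRWW hA b⟩, uv_disjoint hLOC hRWW hA,
    lt_np hLOC hRWW hA⟩

end ESY.AC.UVMM
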