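import Pool.Agent.Lib.MP_b9add9_lc.AC.QVS
import Pool.Agent.Lib.MP_b9add9_lc.AC.CAN
import Pool.Agent.Lib.MP_b9add9_lc.AC.CER
import Pool.Agent.Lib.MP_b9add9_lc.AC.LOC
import Pool.Agent.Lib.MP_b9add9_lc.AC.CLO
import Pool.Agent.Lib.MP_b9add9_lc.AC.BLD
import Pool.Agent.Lib.MP_b9add9_lc.AC.CNW
import Pool.Agent.Lib.MP_b9add9_lc.AC.SWI
import Pool.Agent.Lib.MP_b9add9_lc.AC.CLS
import Pool.Agent.Lib.MP_b9add9_lc.AC.GEN
import Pool.Agent.Lib.MP_b9add9_lc.AC.CRT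
import Pool.Agent.Lib.MP_b9add9_lc.AC.OUT
import Pool.Agent.Lib.MP_b9add9_lc.AC.BTO
import Pool.Agent.Lib.MP_b9add9_lc.AC.CONE
import Pool.Agent.Lib.MP_b9add9_lc.AC.RWW
import Pool.Agent.Lib.MP_b9add9_lc.AC.UVM
import Pool.Agent.Lib.MP_b9add9_lc.AC.RDU
import Pool.Agent.Lib.MP_b9add9_lc.AC.MRD
import Pool.Agent.Lib.MP_b9add9_lc.AC.FIN

/-!
# Assembly
-/

namespace ESY.AC

open ESY
open ESY.Alg6 (AE)

theorem all [AE] : SpecCRT ∧ SpecGEN ∧ SpecBTO ∧ SpecCON ∧ SpecRWW ∧ SpecUVM ∧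
    SpecRDU ∧ SpecMRD := by
  have hCER : SpecCER := CERM.specCER
  have hLOC : SpecLOC := LOCM.specLOC hCER
  have hCLO : SpecCLO := CLOM.specCLO hCER hLOC
  have hBLD : SpecBLD := BLDM.specBLD
  have hQVS : SpecQVS := QVSM.specQVS
  have hCNW : SpecCNW := CNWM.specCNW hLOC hBLD
  have hSWI : SpecSWI := SWIM.specSWI hQVS hLOC hCLO hBLD
  have hCLS : SpecCLS := CLSM.specCLS hLOC
  have hRWW : SpecRWW := RWWM.specRWW hLOC
  exact ⟨CRTM.specCRT, GENM.specGEN hLOC specCAN hCNW hSWI hCLS, BTOM.specBTO, CONM.specCON,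
    hRWW, UVMM.specUVM hLOC hRWW, specRDU hLOC hRWW, MRDM.specMRD hRWW OUTM.specOUT⟩

/-- **The theorem.** -/
theorem final (E : Oracle → Oracle) (hE : AdditiveExt E) (X : Oracle) (T : ℕ → ℕ → ℕ)
    (hT : Subexponential T) : ∃ (Y : Oracle) (U V L : Set (List Bool)),
      (∀ C D, NPPair (join (join X Y) (E (join X Y))) C D →
        MReduces poly (join X Y) C D U V) ∧
      (∀ S, Separator U V S → ∀ L', InNP (join (join X Y) (E (join X Y))) L' →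
        InP (join (join X Y) S) L') ∧
      (∀ L', InNP (join (join X Y) (E (join X Y))) L' → InUPk 1 (join X Y) L') ∧
      ∀ B : Oracle, InP B {s | join X Y s = true} →
        InP (join (join X Y) (E (join X Y))) {s | B s = true} →
        MComplete B U V ∧ DisjointNPPair B U V ∧ NPHard B U V ∧
        (∀ L', InNP B L' → InUPk 1 B L') ∧ InNP B L ∧ ¬ InNTime T B Lᶜ ∧
        NoOptimal T B Lᶜ :=
  FINM.final (fun {_} => all) E hE X T hT

end ESY.AC
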