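import Pool.Agent.Lib.MP_b9add9_lc.AC.Spec

/-!
# MP_b9add9_lc, row AC, module QVS: a query does not change when the contributions of the half
blocks do not change
-/

set_option linter.unusedSectionVars false
set_option autoImplicit false

namespace ESY.AC.QVSM

open ESY ESY.Conv ESY.Few ESY.AC Set
open ESY.Alg2 (tp ln)
open ESY.Alg3 (Ls mem_Ls Qy rs rs_length rs_inj vn)
open ESY.Alg4 (O0 O1 kp Jn)
open ESY.Alg6 (AE bk ex lw qv ql wt Gp Cn St atl Lb mem_Lb qv_eq)

variable [AE]

theorem mem_Sn {n : ℕ} {y : List Bool} :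
    y ∈ Sn n ↔ y.length = 8 * Mn n ∧ true ∈ y ∧ false ∈ y := by
  rw [Sn, Finset.mem_filter, mem_Ls]

theorem rs_len {v y : List Bool} (hy : y ∈ Sn v.length) {j : ℕ} (hj : j ≤ 1) :
    (rs Jn v y j).length = lvl v := by
  rw [rs_length Jn v y hj, (mem_Sn.1 hy).1]
  unfold lvl lvn Jn
  ring

/-- the blocks of level at most `m` -/
noncomputable def Vb (m : ℕ) : Finset (List Bool) := (Lb m).filter fun v => lvl v ≤ m

theorem mem_Vb {m : ℕ} {v : List Bool} : v ∈ Vb m ↔ lvl v ≤ m := by
  rw [Vb, Finset.mem_filter, mem_Lb]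
  refine ⟨fun h => h.2, fun h => ⟨?_, h⟩⟩
  unfold lvl lvn at h
  omega

theorem last_cases {n : ℕ} {y : List Bool} (hy : y ∈ Sn n) :
    ¬ y.getLast? = some true ↔ y.getLast? = some false := by
  have h1 : y ≠ [] := by
    rintro rfl
    exact absurd (mem_Sn.1 hy).2.1 List.not_mem_nil
  rw [List.getLast?_eq_some_getLast h1]
  cases y.getLast h1 <;> simp

theorem sum_half (n : ℕ) {G : Type} [AddCommGroup G] (g : List Bool → G) :
    ∑ y ∈ Sn n, g y = ∑ y ∈ Sb true n, g y + ∑ y ∈ Sb false n, g y := by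
  classical
  rw [← Finset.sum_filter_add_sum_filter_not (Sn n) (fun y => y.getLast? = some true)]
  unfold Sb
  congr 1
  refine Finset.sum_congr (Finset.filter_congr fun y hy => last_cases hy) fun _ _ => rfl

theorem rowBit_sum (A : Oracle) (p : Qy) (m : ℕ) [DecidablePred RowBit] :
    ∑ s ∈ (Lb m).filter RowBit, (if A s = true then Alg6.cf p s else 0) =
      ∑ v ∈ Vb m, (ct p v (cfg A true v) + ct p v (cfg A false v)) := by
  classical
  have h1 : (Lb m).filter RowBit = ((Vb m).sigma fun v => Sn v.length ×ˢ Finset.range 2).image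
      fun t => rs Jn t.1 t.2.1 t.2.2 := by
    ext s
    rw [Finset.mem_filter, mem_Lb, Finset.mem_image]
    constructor
    · rintro ⟨hs, v, y, hy, j, hj, rfl⟩
      rw [rs_len hy hj] at hs
      refine ⟨⟨v, (y, j)⟩, ?_, rfl⟩
      rw [Finset.mem_sigma, Finset.mem_product, Finset.mem_range, mem_Vb]
      exact ⟨hs, hy, Nat.lt_succ_of_le hj⟩
    · rintro ⟨⟨v, y, j⟩, h, rfl⟩
      rw [Finset.mem_sigma, Finset.mem_product, Finset.mem_range, mem_Vb] at h
      obtain ⟨hn, hy, hj⟩ := h
      simp only at hn hy hj ⊢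
      refine ⟨?_, v, y, hy, j, Nat.le_of_lt_succ hj, rfl⟩
      rw [rs_len hy (Nat.le_of_lt_succ hj)]
      exact hn
  rw [h1, Finset.sum_image, Finset.sum_sigma]
  · refine Finset.sum_congr rfl fun v _ => ?_
    rw [Finset.sum_product, sum_half]
    unfold ct kp cfg
    simp only
    rw [Finset.sum_filter, Finset.sum_filter, Finset.sum_filter, Finset.sum_filter,
      ← Finset.sum_add_distrib, ← Finset.sum_add_distrib]
    congr 1
    · refine Finset.sum_congr rfl fun y _ => ?_
      rw [Finset.sum_range_succ, Finset.sum_range_one]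
    · refine Finset.sum_congr rfl fun y _ => ?_
      rw [Finset.sum_range_succ, Finset.sum_range_one]
  · rintro ⟨v, y, j⟩ h ⟨v', y', j'⟩ h' e
    rw [Finset.mem_coe, Finset.mem_sigma, Finset.mem_product, Finset.mem_range] at h h'
    simp only at h h' e
    obtain ⟨e1, e2, e3⟩ := rs_inj (J := Jn) (Nat.le_of_lt_succ h.2.2) (Nat.le_of_lt_succ h'.2.2) e
    rw [e1, e2, e3]

/-- **QVS.** -/
theorem specQVS : SpecQVS := by
  classical
  intro p A A' h1 h2
  rw [qv_eq, qv_eq]
  congr 1
  rw [← Finset.sum_filter_add_sum_filter_not (Lb (ql p)) RowBit,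
    ← Finset.sum_filter_add_sum_filter_not (Lb (ql p)) RowBit fun s =>
      if A' s = true then Alg6.cf p s else 0]
  congr 1
  · rw [rowBit_sum, rowBit_sum]
    refine Finset.sum_congr rfl fun v hv => ?_
    rw [h2 true v (mem_Vb.1 hv), h2 false v (mem_Vb.1 hv)]
  · refine Finset.sum_congr rfl fun s hs => ?_
    obtain ⟨h3, h4⟩ := Finset.mem_filter.1 hs
    rw [h1 s (mem_Lb.1 h3) h4]

end ESY.AC.QVSM
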