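import Pool.Agent.Lib.MP_b9add9_lc.AC.Defs
import Pool.Agent.Lib.MP_80aaf5_lc.Alg3.MchProof

/-!
# MP_b9add9_lc, row AC: statements of the modules, with proofs

One file `AC/<NAME>.lean` per module: `import Pool.Agent.Lib.MP_b9add9_lc.AC.Spec`, namespace
`ESY.AC.<NAME>M`, theorem `spec<NAME> (h : SpecYYY) .. : Spec<NAME>` (hypotheses: the modules named
after USES, in that order). Everything of `Alg6` is imported (`ESY.Alg6.*`, for full blocks instead
of half blocks): nearly every module is an adaptation of a named theorem there. `Alg3.specVM`,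
`Alg3.specPM`, `Alg3.specRED` are theorems (general in the length function `L`). Begin with
`open ESY ESY.Conv ESY.Few ESY.AC` and `variable [AE]` (`open ESY.Alg6 (AE bk ex lw qv ql wt Gp Cn St
atl)`; do not open all of `Alg6`: the names `cfg`, `Sn`, `Mn`, `lvl` .. exist there, too;
`set_option linter.unusedSectionVars false`).
-/

set_option linter.unusedSectionVars false
set_option autoImplicit false

namespace ESY.AC

open ESY ESY.Conv ESY.Few Set
open ESY.Alg2 (tp ln)
open ESY.Alg3 (Ls Qy rs vn AllOnes Flag0 Flag1 Flag2)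
open ESY.Alg4 (O0 O1 kp Jn)
open ESY.Alg6 (AE bk ex lw qv ql wt Gp Cn St atl)

variable [AE]

/-! ## Rows (group R) -/

/-- QVS (~120 lines). A query does not change when the contributions of the half blocks do not
change. PROOF: `Alg6.rowBit_sum`, `Alg6.qv_same`. The sum over the names `rs Jn v y j` of rows
`y ∈ Sn v.length` splits into the two sums over `Sb true`, `Sb false` (every `y ∈ Sn` is nonempty, so
it has a last bit); `rs_inj`. -/
def SpecQVS : Prop := ∀ (p : Qy) (A A' : Oracle),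
  (∀ s : List Bool, s.length ≤ ql p → ¬ RowBit s → A s = A' s) →
  (∀ b v, lvl v ≤ ql p → ct p v (cfg A b v) = ct p v (cfg A' b v)) → qv p A = qv p A'

/-- CAN (~180 lines). Canonical configurations. PROOF: `Alg6.size_bound`, `Alg6.exists_canon`,
`c0_amb`, `c1_amb` with `S = Sb b n` for each `b` separately (`Alg4.exists_c0`, `Alg4.exists_c1` are
general in `S`). Sizes: the rows of length `N = 8 Mn n` with last bit `b` are `2 ^ (N - 1)` minus at
most one, so `2 ^ (8 * Mn n) ≤ 2 * (Sb b n).card + 2` (e.g. the map `y ↦ y.dropLast ++ [!b]` is a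
bijection from `Ls N` with last bit `b` to the other half); `Mn n ≥ 12` gives
`12 * (2 ^ n * 16 ^ Mn n * (2 * (2 ^ Mn n + 8 * Mn n) + 1)) ≤ (Sb b n).card` with room. -/
def SpecCAN : Prop := ∃ c0 c1 : Bool → List Bool → Cfg, Canon c0 c1

/-- CER (~70 lines). Certificates and locality of single statements. PROOF: `Alg6.exists_cert`,
`Alg6.st_congr` (stop before `ln_cn`, `ln_lvl` are used). -/
def SpecCER : Prop :=
  (∀ (A : Oracle) (a : ℕ) (q : List Bool), St A a q → ∃ c : Finset Qy,
    ∑ p ∈ c, wt p ≤ ln a q * (bk (2 * ln a q) + 1) ∧ (∀ p ∈ c, ql p ≤ bk (2 * ln a q)) ∧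
    ∀ A', (∀ p ∈ c, qv p A' = qv p A) → St A' a q) ∧
  ∀ (A A' : Oracle) (a : ℕ) (q : List Bool),
    (∀ s : List Bool, s.length ≤ bk (2 * ln a q) → A s = A' s) → (St A a q ↔ St A' a q)

/-- LOC (~80 lines), USES CER. Names and locality. PROOF: `np_inj` as `Alg3.nm_inj`;
`ln (pick a b) q ≤ lp a q ≤ (np a q).length`; `bk (2 * (np a q).length) < Mn _ ≤ lvl` as `Alg6.lvl_ge`;
then `TS`, `sel`, `St` at a name depend only on the strings shorter than the level, `FullB`, `EmpB` only
on the strings of the length `lvl v` (`Alg6.cfg_congr`, `Alg6.rs_len`). `sel` chooses a true side. A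
full half is not empty (`Alg6.not_full`). -/
def SpecLOC : Prop :=
  (∀ (a a' : ℕ) (q q' : List Bool), np a q = np a' q' → a = a' ∧ q = q') ∧
  (∀ (a : ℕ) (q : List Bool) (b : Bool), ln (pick a b) q ≤ (np a q).length ∧
    bk (2 * ln (pick a b) q) < lvl (np a q) ∧
    ln (pick a b) q * (bk (2 * ln (pick a b) q) + 1) ≤ Cn (np a q).length) ∧
  (∀ (A A' : Oracle) (v : List Bool), (∀ s : List Bool, s.length < lvl v → A s = A' s) →
    (TS A v ↔ TS A' v) ∧ sel A v = sel A' v) ∧
  (∀ (A A' : Oracle) (a : ℕ) (q : List Bool) (b : Bool),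
    (∀ s : List Bool, s.length < lvl (np a q) → A s = A' s) →
    (St A (pick a b) q ↔ St A' (pick a b) q)) ∧
  (∀ (A A' : Oracle) (b : Bool) (v : List Bool), (∀ s : List Bool, s.length = lvl v → A s = A' s) →
    cfg A b v = cfg A' b v) ∧
  (∀ (A : Oracle) (a : ℕ) (q : List Bool), TS A (np a q) → St A (pick a (sel A (np a q))) q) ∧
  (∀ (A : Oracle) (b : Bool) (v : List Bool), EmpB A b v → ¬ FullB A b v) ∧
  (∀ n n' : ℕ, n < n' → lvn n < lvn n') ∧ (∀ n : ℕ, 4 * (n + 1) ≤ Mn n ∧ n ≤ lvn n) ∧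
  ∀ n n' : ℕ, n ≤ n' → Mn n ≤ Mn n'

/-! ## Worlds (group W) -/

/-- CLO (~200 lines), USES CER, LOC. Closure. PROOF: `Alg6.closure_step`, `Alg6.exists_closure`, with
`Dk = {v | |v| = k, TS A v, the configuration c1 (sel A v) v is not ambiguous}`. It is the union of
the two sets with `sel A v = true`, `sel A v = false`, each has at most `Σ wt / Mn k` elements (`amb1`),
and `Mn k = 2 (k+1) (k+3) Cn k`, so `(k+1) (k+3) Cn k * Dk.card ≤ Σ wt` as there. The certificate of
`v = np a q` is that of the true statement `pick a (sel A v)`. -/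
def SpecCLO : Prop := ∀ c0 c1 : Bool → List Bool → Cfg, Canon c0 c1 →
  ∀ (A : Oracle) (n₀ : ℕ) (Q₀ : Finset Qy), (∀ n, n₀ ≤ n → 2 * ∑ p ∈ Q₀, wt p ≤ 2 ^ Mn n) →
  ∃ Q, Q₀ ⊆ Q ∧ (∀ n, n₀ ≤ n → Good c1 A Q n) ∧ ∑ p ∈ Q, wt p ≤ 2 * ∑ p ∈ Q₀, wt p

/-- BLD (~110 lines). Building an oracle. PROOF: `Alg6.build` (`Alg2.exists_fix`); the row `y` in
`rs Jn v y j` belongs to exactly one half. -/
def SpecBLD : Prop := ∀ (A₁ : Oracle) (n₀ : ℕ) (c : Oracle → Bool → List Bool → Cfg),
  (∀ A b v, (c A b v).1 ⊆ Sb b v.length ∧ (c A b v).2 ⊆ Sb b v.length) →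
  (∀ A A' b v, (∀ s : List Bool, s.length < lvl v → A s = A' s) → c A b v = c A' b v) →
  ∃ A, (∀ s, ¬ RowBitF n₀ s → A s = A₁ s) ∧ (∀ s : List Bool, s.length < lvn n₀ → A s = A₁ s) ∧
    ∀ b v, n₀ ≤ v.length → cfg A b v = c A b v

/-- CNW (~130 lines), USES LOC, BLD. Canonical worlds. PROOF: `Alg6.canon`, `Alg6.exists_world`, with
the configurations `cc`. Above `n₀`: if `TS A v` then exactly the half `sel A v` is full, it names a true
side; otherwise both halves are empty. Below `n₀` nothing changes (locality). The second statement: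
`n₀ = 0`, `A₁ = Bs X`. -/
def SpecCNW : Prop := ∀ c0 c1 : Bool → List Bool → Cfg, Canon c0 c1 → ∀ X : Oracle,
  (∀ (A₁ : Oracle), IsWorld X A₁ → ∀ n₀ : ℕ, ∃ A, IsWorld X A ∧
    (∀ s : List Bool, s.length < lvn n₀ → A s = A₁ s) ∧
    ∀ b v, n₀ ≤ v.length → cfg A b v = cc c0 c1 A b v) ∧
  ∃ A, IsWorld X A

/-- SWI (~220 lines), USES QVS, LOC, CLO, BLD. Switching a block. PROOF: `Alg6.switch`. `Q` from CLO.
`f1 b v ∈ O1` with the values of `c0 b v` on `atl Q (lvl v)` (`amb0`), `f0 b v ∈ O0` with those of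
`c1 b v` if there is one. New full half: `side A v = sel A₂ v` if `v = np a q`, `TS A₂ v` and
`St A (pick a (sel A₂ v)) q`, otherwise `sel A v`; `τ A b v` iff (`v = v₀` and `b = true`) or (`TS A v` and
`b = side A v`); `old b v` iff `TS A₂ v` and `b = sel A₂ v`. New configuration of the half `b`: `τ` and
`old`: `c1 b v`; `τ`, not `old`: `f1 b v`; not `τ`, `old`: `f0 b v`; neither: `c0 b v`. BLD gives `A`. The values
of the queries of `Q` do not change (strong induction on `ql p`, QVS): the only case without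
ambiguity is `old`, not `τ`, `c1 b v` not ambiguous; then by `Good` (queries below the level have their
old values by induction) `St A (pick a (sel A₂ v)) q`, so `TS A v` and `side A v = sel A₂ v = b`, i.e. `τ`.
`A` is a world: if `TS A v` exactly the half `side A v` is full and `side A v` names a true side
(`sel A v` does by LOC). All other blocks above `n₀` that are not names are empty. -/
def SpecSWI : Prop := ∀ c0 c1 : Bool → List Bool → Cfg, Canon c0 c1 → ∀ X A₂ : Oracle,
  IsWorld X A₂ → ∀ n₀ : ℕ, (∀ b v, n₀ ≤ v.length → cfg A₂ b v = cc c0 c1 A₂ b v) →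
  ∀ Q₀ : Finset Qy, (∀ n, n₀ ≤ n → 2 * ∑ p ∈ Q₀, wt p ≤ 2 ^ Mn n) →
  ∀ v₀ : List Bool, n₀ ≤ v₀.length → (∀ a q, v₀ ≠ np a q) →
  ∃ A, IsWorld X A ∧ (∀ s : List Bool, s.length < lvn n₀ → A s = A₂ s) ∧
    (∀ p ∈ Q₀, qv p A = qv p A₂) ∧ FullB A true v₀ ∧
    ∀ v : List Bool, n₀ ≤ v.length → (∀ a q, v ≠ np a q) → v ≠ v₀ → ∀ b, EmpB A b v

/-- CLS (~50 lines), USES LOC. PROOF: `Alg6.closed_world`, `Alg6.clopen_of_agree`. -/
def SpecCLS : Prop := ∀ X : Oracle, IsClosed {A : Oracle | IsWorld X A} ∧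
  (∀ (b : Bool) (v : List Bool), IsClosed {A : Oracle | EmpB A b v}) ∧
  ∀ (m : ℕ) (A₁ : Oracle), IsClosed {A : Oracle | ∀ s : List Bool, s.length < m → A s = A₁ s}

/-- GEN (~280 lines), USES LOC, CAN, CNW, SWI, CLS. The generic world. `P e A x`: the acceptor `e`
accepts `x`; `P' e c A x`: within the time bound `c`. PROOF (forcing). `Uns e A`: some `x ∈ LT A` has
`P e A x`. `K e = {false :: (1^e 0 z)}`. A CONDITION is a triple `(A, m, Z)`, `A` a world, `Z` a set of
strings beginning with `false` (so they are not names), `EmpB A b v` for `v ∈ Z`;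
`W (A, m, Z) = {A' world | A' = A below lvn m, EmpB A' b v for v ∈ Z}`. INVARIANT: if `Z ∩ K e ≠ ∅` then
`false :: (tx e θ ++ z) ∈ Z` for some `θ` and all `z`, and no member of `W (A, m, Z \ K e)` is unsound for
`e`. It passes to `(A', m', Z)` with `A' ∈ W (A, m, Z)`, `m' ≥ m`. STEP for `(e, c, k)`: every condition
has a stronger one (`W` smaller, `Z` larger) such that either all members of `W` are unsound for `e`,
or `Z ∩ K e ≠ ∅` and for some `N ≥ k` no member of `W` has `P' e c _ (tx e N)`. (1) If some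
`A' ∈ W` is unsound for `e`: fix a long prefix of `A'` (first hypothesis, `FullB` is local).
(2) Otherwise, if `Z ∩ K e = ∅`: take the canonical world `A₂` above `m` (CNW) and add all
`false :: (tx e m ++ z)` to `Z`: they are longer than `m` and not names, so empty in `A₂`; the
invariant for `e` is the assumption of (2). (3) Now `Z ∩ K e ≠ ∅`. Take `N ≥ k` large, `x = tx e N`,
`v₀ = false :: x`, `n₀ = |v₀|` with `2 W e c |x| ≤ 2 ^ |x|` (`Sub`), and the canonical world `A₃` above
`n₀`. If `P' e c A₃ x`: `Q` from the last hypothesis, `A₄` from SWI: `P e A₄ x`, `x ∈ LT A₄`, and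
`A₄ ∈ W (A, m, Z \ K e)` (blocks shorter than `n₀` are unchanged, the longer ones in `Z \ K e` are not
names and not `v₀ ∈ K e`): against the invariant. So not `P' e c A₃ x`; fix a long prefix of `A₃`
(second hypothesis). END: iterate over all `(e, c, k)`; the sets `W` are closed (CLS), nonempty,
decreasing in the compact space of oracles, so they have a common member `A`. -/
def SpecGEN : Prop := ∀ (X : Oracle) (P : ℕ → Oracle → List Bool → Prop)
  (P' : ℕ → ℕ → Oracle → List Bool → Prop) (W : ℕ → ℕ → ℕ → ℕ),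
  (∀ e A x, P e A x → ∃ m : ℕ, ∀ A' : Oracle,
    (∀ s : List Bool, s.length ≤ m → A' s = A s) → P e A' x) →
  (∀ e c x, ∃ m : ℕ, ∀ A A' : Oracle,
    (∀ s : List Bool, s.length ≤ m → A' s = A s) → (P' e c A x ↔ P' e c A' x)) →
  (∀ e c, Sub (W e c)) →
  (∀ e c A x, P' e c A x → ∃ Q : Finset Qy, ∑ p ∈ Q, wt p ≤ W e c x.length ∧
    ∀ A' : Oracle, (∀ p ∈ Q, qv p A' = qv p A) → P e A' x) →
  ∃ A, IsWorld X A ∧ ∀ e, (∃ x ∈ LT A, P e A x) ∨
    ((∃ θ, ∀ z, tx e θ ++ z ∉ LT A) ∧ ∀ c k, ∃ N, k ≤ N ∧ ¬ P' e c A (tx e N))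

/-! ## Acceptance and machines (group M) -/

/-- CRT (~150 lines). Acceptance over the decided oracle. PROOF: as in `Alg6.dk_congr`, `dk_len`,
`dk_local`, `open_rq` (first and second part) and `dense_rq` (third part: `qs`, `hqs`, `hwt`; `Sub` as
`hsub` there without the factor 2). -/
def SpecCRT : Prop := ∀ T : ℕ → ℕ → ℕ, Subexponential T → ∀ (N M : Machine) (d : ℕ),
  (∀ (A : Oracle) (x : List Bool), (∃ w t, AcceptsIn (dk N d A) M x w t) →
    ∃ m : ℕ, ∀ A' : Oracle, (∀ s : List Bool, s.length ≤ m → A' s = A s) →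
      ∃ w t, AcceptsIn (dk N d A') M x w t) ∧
  (∀ (c : ℕ) (x : List Bool), ∃ m : ℕ, ∀ A A' : Oracle,
    (∀ s : List Bool, s.length ≤ m → A' s = A s) →
      (NAc N d M (T c) A x ↔ NAc N d M (T c) A' x)) ∧
  ∃ W : ℕ → ℕ → ℕ, (∀ c, Sub (W c)) ∧ ∀ c A x, NAc N d M (T c) A x → ∃ Q : Finset Qy,
    ∑ p ∈ Q, wt p ≤ W c x.length ∧
    ∀ A' : Oracle, (∀ p ∈ Q, qv p A' = qv p A) → NAc N d M (T c) A' x

/-- OUT (~130 lines). The machine that writes the name. PROOF: push `0`, then `1^a` (one state each;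
or `a` times a combinator like `Few.pre`), then the states `0`, `70` .. `88` of `Alg3.fcCode true ..`
with `halt true` after the last push (`MchM.pad` is the run, for `k = 0`); `Conv.mk2`, `MchM.Go`. -/
def SpecOUT : Prop := ∀ a : ℕ, ∃ M : Machine, ∀ (L : ℕ → List Bool → ℕ) (Q : Oracle),
  Flag0 L Q → ∀ (q : List Bool) (T : ℕ), 12 * L a q + 14 + a + 2 ≤ T →
    Outputs Q M q (false :: vn L a q) T

/-- BTO (~110 lines). Substitution for machines with output. PROOF: `Btw.subst` (in its proof `key`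
gives the whole configuration: the stacks `Sum.inl i` of `scode M N` are the stacks of `M`),
`Btw.toMachine` (`iter_conv`, the stack `k0` becomes the stack `0`), `Btw.decider`; a halting
configuration does not change (`Btw.iter_stay`). -/
def SpecBTO : Prop := ∀ C D : Oracle, InP D {s | C s = true} → ∀ (M : Machine) (c : ℕ),
  ∃ (M' : Machine) (c' : ℕ), ∀ x y : List Bool, Outputs C M x y (poly c x.length) →
    Outputs D M' x y (poly c' x.length)

/-- CON (~60 lines). Cones are in `P`. PROOF: a machine with `|u| + 2` states that pops `|u|` symbols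
(`Btw.toMachine` with states `Fin (|u| + 1) ⊕ Bool`, or induction on `u` with a combinator). -/
def SpecCON : Prop := ∀ (O : Oracle) (u : List Bool), InP O {x | u <+: x}

/-! ## Rows of a world and the pair (group F) -/

/-- RWW (~150 lines), USES LOC. PROOF: `Alg6.not_rowBit`, `allOnes_Sn`, `allOnes_length`,
`allOnes_iff`, `full_iff`, `allOnes_uniq`, `flag0`, `flag1`, `flag2`, `world_join` of `Alg6/Final.lean`. -/
def SpecRWW : Prop := ∀ X A : Oracle, IsWorld X A →
  (∀ v y : List Bool, AllOnes Jn A v y → y ∈ Sn v.length ∧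
    ∃ b, y.getLast? = some b ∧ FullB A b v) ∧
  (∀ (b : Bool) (v : List Bool), FullB A b v → ∃ y, AllOnes Jn A v y ∧ y.getLast? = some b) ∧
  (∀ v y y' : List Bool, AllOnes Jn A v y → AllOnes Jn A v y' → y = y') ∧
  Flag0 lp A ∧ Flag1 Nn A ∧ Flag2 Jn A ∧ A = join X fun s => A (true :: s)

/-- UVM (~150 lines), USES LOC, RWW. PROOF: `Alg6.uv_disjoint`, `uv_nonempty`, `uv_np`, `lt_np` with
`k = 0`, `O = A` (`Alg3.specVM`). `Alg6.UV`, `uv_mk`, `uv_split` do not depend on the worlds and are used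
as they are. -/
def SpecUVM : Prop := ∀ X A : Oracle, IsWorld X A →
  (∀ b, (Alg6.UV A b).Nonempty ∧ InNP A (Alg6.UV A b)) ∧
  Disjoint (Alg6.UV A true) (Alg6.UV A false) ∧ InNP A (LT A)

/-- RDU (~170 lines), USES LOC, RWW. The pair is `NP`-hard and `NP = UP`. PROOF: `Alg6.hs_eq`, `pb_nm`,
`nm_length`, `bound_all`, `red_P`, `up_A` with the index `Nat.pair a a` (both statements are the same,
so `St A a q` iff some half of the block `np (Nat.pair a a) q` is full). -/
def SpecRDU : Prop := ∀ X A : Oracle, IsWorld X A → ∀ (L : Set (List Bool)) (a : ℕ),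
  (∀ q, q ∈ L ↔ St A a q) → InUPk 1 A L ∧
  ∀ S : Oracle, Separator (Alg6.UV A true) (Alg6.UV A false) S → InP (join A S) L

/-- MRD (~100 lines), USES RWW, OUT. The pair is complete. PROOF: `x ↦ false :: np (Nat.pair a₁ a₂) x`
(OUT with `L = lp`, `Q = A`; polynomial bound as `Alg6.bound_all`). `x ∈ C`: by `compl` some half `b` of
the block is full; if `b = false`, `sound` gives `St A a₂ x`, i.e. `x ∈ D`, impossible; so the full row
ends with `true`: `y = l ++ [true]`, `Alg6.uv_mk` with `h = []` gives `false :: v ∈ UV A true`. The same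
for `D`. -/
def SpecMRD : Prop := ∀ X A : Oracle, IsWorld X A → ∀ (C D : Set (List Bool)) (a₁ a₂ : ℕ),
  (∀ q, q ∈ C ↔ St A a₁ q) → (∀ q, q ∈ D ↔ St A a₂ q) → Disjoint C D →
  MReduces poly A C D (Alg6.UV A true) (Alg6.UV A false)

end ESY.AC
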